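import Mathlib

/-!
An integral combination of roots of unity all of whose conjugates are small is zero.
-/

namespace Pool.Agent.N997

open Finset

/-- the combination of the roots of unity -/
noncomputable def EV {m : ℕ} [NeZero m] (x : ZMod m → ℤ) (t : ZMod m) : ℂ :=
  ∑ a, (x a : ℂ) * ZMod.stdAddChar (t * a)

lemma stdAddChar_mul_natCast {m : ℕ} [NeZero m] (t : ℕ) (a : ZMod m) :
    (ZMod.stdAddChar ((t : ZMod m) * a) : ℂ) =
      (Complex.exp (2 * Real.pi * Complex.I * (t / m))) ^ a.val := by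
  have h : (t : ZMod m) * a = (((t * a.val : ℕ) : ℤ) : ZMod m) := by
    push_cast
    rw [ZMod.natCast_zmod_val]
  rw [h, ZMod.stdAddChar_coe, ← Complex.exp_nat_mul]
  congr 1
  push_cast
  ring

theorem EV_eq_zero {m : ℕ} [NeZero m] (x : ZMod m → ℤ)
    (h : ∀ t : (ZMod m)ˣ, ‖EV x (t : ZMod m)‖ < 1) : EV x 1 = 0 := by
  classical
  have hm : m ≠ 0 := NeZero.ne m
  let K := CyclotomicField m ℚ
  have : NumberField K := inferInstance
  have : IsCyclotomicExtension {m} ℚ K := CyclotomicField.isCyclotomicExtension m ℚ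
  obtain ⟨ζ, hζ⟩ : ∃ ζ : K, IsPrimitiveRoot ζ m :=
    ⟨IsCyclotomicExtension.zeta m ℚ K, IsCyclotomicExtension.zeta_spec m ℚ K⟩
  set X : K := ∑ a : ZMod m, (x a : K) * ζ ^ a.val with hX
  have hXint : IsIntegral ℤ X := by
    rw [hX]
    apply IsIntegral.sum
    intro a _
    apply IsIntegral.mul
    · exact isIntegral_algebraMap
    · exact (hζ.isIntegral (NeZero.pos m)).pow _
  have hφ : ∀ φ : K →+* ℂ, ∃ t : ℕ, t.Coprime m ∧ φ X = EV x (t : ZMod m) := by
    intro φ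
    have h1 : IsPrimitiveRoot (φ ζ) m := hζ.map_of_injective φ.injective
    rw [Complex.isPrimitiveRoot_iff _ _ hm] at h1
    obtain ⟨t, _, hcop, ht⟩ := h1
    refine ⟨t, hcop, ?_⟩
    rw [hX, map_sum, EV]
    refine sum_congr rfl fun a _ => ?_
    rw [map_mul, map_pow, map_intCast, ← ht, stdAddChar_mul_natCast]
  have hsmall : ∀ φ : K →+* ℂ, ‖φ X‖ < 1 := by
    intro φ
    obtain ⟨t, hcop, ht⟩ := hφ φ
    rw [ht]
    have := h (ZMod.unitOfCoprime t hcop)
    rwa [ZMod.coe_unitOfCoprime] at this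
  have hX0 : X = 0 := by
    by_contra hne
    have hn : Algebra.norm ℚ X ≠ 0 := by
      rw [Ne, Algebra.norm_eq_zero_iff]; exact hne
    obtain ⟨z, hz⟩ := IsIntegrallyClosed.isIntegral_iff.mp (Algebra.isIntegral_norm ℚ hXint)
    have hz0 : z ≠ 0 := by
      rintro rfl
      apply hn
      rw [← hz]; simp
    have hz1 : (1 : ℝ) ≤ |(z : ℝ)| := by
      exact_mod_cast Int.one_le_abs hz0
    have hprod := Algebra.norm_eq_prod_embeddings ℚ ℂ X
    rw [← hz] at hprod
    have hprod' : ((z : ℂ)) = ∏ σ : K →ₐ[ℚ] ℂ, σ X := by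
      rw [← hprod]; simp
    have h1 : |(z : ℝ)| = ∏ σ : K →ₐ[ℚ] ℂ, ‖σ X‖ := by
      rw [← norm_prod, ← hprod']
      simp
    have h2 : ∏ σ : K →ₐ[ℚ] ℂ, ‖σ X‖ < 1 := by
      have hne2 : (Finset.univ : Finset (K →ₐ[ℚ] ℂ)).Nonempty := by
        rw [Finset.univ_nonempty_iff]
        exact ⟨(IsAlgClosed.lift : K →ₐ[ℚ] ℂ)⟩
      have h3 := Finset.prod_lt_prod_of_nonempty (s := (Finset.univ : Finset (K →ₐ[ℚ] ℂ)))
        (f := fun σ => ‖σ X‖) (g := fun _ => (1 : ℝ)) ?_ ?_ hne2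
      · simpa using h3
      · intro σ _
        rw [norm_pos_iff]
        intro h0
        exact hne ((map_eq_zero σ).mp h0)
      · intro σ _
        exact hsmall σ.toRingHom
    linarith
  have hmin : minpoly ℚ ζ = Polynomial.cyclotomic m ℚ :=
    (Polynomial.cyclotomic_eq_minpoly_rat hζ (NeZero.pos m)).symm
  have hy : IsPrimitiveRoot (Complex.exp (2 * Real.pi * Complex.I * ((1 : ℕ) / m))) m := by
    rw [Complex.isPrimitiveRoot_iff _ _ hm]
    rcases Nat.lt_or_ge 1 m with h1 | h1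
    · exact ⟨1, h1, Nat.coprime_one_left m, rfl⟩
    · have hm1 : m = 1 := by omega
      refine ⟨0, by omega, ?_, ?_⟩
      · rw [hm1]; norm_num
      · rw [hm1]; simp [Complex.exp_two_pi_mul_I]
  let φ : K →ₐ[ℚ] ℂ := (hζ.powerBasis ℚ).lift (Complex.exp (2 * Real.pi * Complex.I * ((1 : ℕ) / m)))
    (by
      rw [hζ.powerBasis_gen ℚ, hmin, Polynomial.aeval_def, Polynomial.eval₂_eq_eval_map,
        Polynomial.map_cyclotomic]
      exact hy.isRoot_cyclotomic (NeZero.pos m))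
  have hφ1 : φ ζ = Complex.exp (2 * Real.pi * Complex.I * ((1 : ℕ) / m)) := by
    have h1 : φ ((hζ.powerBasis ℚ).gen) = Complex.exp (2 * Real.pi * Complex.I * ((1 : ℕ) / m)) :=
      (hζ.powerBasis ℚ).lift_gen _ _
    have h2 : (hζ.powerBasis ℚ).gen = ζ := hζ.powerBasis_gen ℚ
    rw [h2] at h1
    exact h1
  have h3 : φ X = EV x 1 := by
    rw [hX, map_sum, EV]
    refine sum_congr rfl fun a _ => ?_
    rw [map_mul, map_pow, map_intCast, hφ1]
    have := stdAddChar_mul_natCast 1 a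
    rw [Nat.cast_one (R := ZMod m)] at this
    rw [this]
  rw [← h3, hX0, map_zero]

end Pool.Agent.N997
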