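import Pool.Agent.H916R2.Relations
import Pool.Agent.N997.Norm

/-!
Division points in `ZMod M`: distribution relations and character sums.
-/

namespace Pool.Agent.N997

open Finset Pool.Agent.H916R2

variable {M : ℕ} [NeZero M]

/-- the solutions of `n * w = u` -/
def fib (M : ℕ) [NeZero M] (n : ℤ) (u : ZMod M) : Finset (ZMod M) :=
  univ.filter (fun w : ZMod M => (n : ZMod M) * w = u)

lemma mem_fib {n : ℤ} {u w : ZMod M} : w ∈ fib M n u ↔ (n : ZMod M) * w = u := by
  simp [fib]

lemma mul_div_zero {n : ℕ} (hn : n ∣ M) : (n : ZMod M) * ((M / n : ℕ) : ZMod M) = 0 := by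
  have : ((n * (M / n) : ℕ) : ZMod M) = 0 := by rw [Nat.mul_div_cancel' hn]; simp
  simpa using this

lemma exists_of_mul_eq_zero {n : ℕ} (hn : n ∣ M) {z : ZMod M} (hz : (n : ZMod M) * z = 0) :
    ∃ i, i < n ∧ z = (i : ZMod M) * ((M / n : ℕ) : ZMod M) := by
  have hM : 0 < M := NeZero.pos M
  have hn0 : 0 < n := Nat.pos_of_dvd_of_pos hn hM
  have h1 : ((n * z.val : ℕ) : ZMod M) = 0 := by
    push_cast; rw [ZMod.natCast_zmod_val]; exact hz
  rw [ZMod.natCast_eq_zero_iff] at h1
  obtain ⟨q, hq⟩ := hn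
  have hMn : M / n = q := by
    conv_lhs => rw [hq]
    exact Nat.mul_div_cancel_left _ hn0
  have h2 : q ∣ z.val := by
    have h3 : n * q ∣ n * z.val := by rw [← hq]; exact h1
    exact Nat.dvd_of_mul_dvd_mul_left hn0 h3
  obtain ⟨i, hi⟩ := h2
  have hlt := ZMod.val_lt z
  refine ⟨i, ?_, ?_⟩
  · by_contra hcon
    have h4 : q * n ≤ q * i := Nat.mul_le_mul_left _ (by omega)
    have h5 : q * n = M := by rw [hq, mul_comm]
    omega
  · rw [hMn]
    calc z = ((z.val : ℕ) : ZMod M) := (ZMod.natCast_zmod_val z).symm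
      _ = _ := by rw [hi]; push_cast; ring

lemma shift_inj {n : ℕ} (hn : n ∣ M) {i j : ℕ} (hi : i < n) (hj : j < n)
    (h : (i : ZMod M) * ((M / n : ℕ) : ZMod M) = (j : ZMod M) * ((M / n : ℕ) : ZMod M)) : i = j := by
  have hM : 0 < M := NeZero.pos M
  have hn0 : 0 < n := Nat.pos_of_dvd_of_pos hn hM
  obtain ⟨q, hq⟩ := hn
  have hMn : M / n = q := by
    conv_lhs => rw [hq]
    exact Nat.mul_div_cancel_left _ hn0
  have hq0 : 0 < q := Nat.pos_of_ne_zero (by rintro rfl; rw [mul_zero] at hq; omega)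
  rw [hMn] at h
  have h1 : ((i * q : ℕ) : ZMod M) = ((j * q : ℕ) : ZMod M) := by push_cast; exact h
  rw [ZMod.natCast_eq_natCast_iff', Nat.mod_eq_of_lt, Nat.mod_eq_of_lt] at h1
  · exact Nat.eq_of_mul_eq_mul_right hq0 h1
  · rw [hq]; exact Nat.mul_lt_mul_of_pos_right hj hq0
  · rw [hq]; exact Nat.mul_lt_mul_of_pos_right hi hq0

lemma sum_fib {R : Type*} [AddCommMonoid R] {n : ℕ} (hn : n ∣ M) (f : ZMod M → R) (w0 : ZMod M) :
    ∑ w ∈ fib M n ((n : ZMod M) * w0), f w =
      ∑ i ∈ range n, f (w0 + (i : ZMod M) * ((M / n : ℕ) : ZMod M)) := by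
  symm
  refine sum_bij (fun i _ => w0 + (i : ZMod M) * ((M / n : ℕ) : ZMod M)) ?_ ?_ ?_ ?_
  · intro i _
    rw [mem_fib]
    push_cast
    linear_combination (i : ZMod M) * mul_div_zero hn
  · intro i hi j hj h
    exact shift_inj hn (mem_range.mp hi) (mem_range.mp hj) (add_left_cancel h)
  · intro w hw
    rw [mem_fib] at hw
    push_cast at hw
    obtain ⟨i, hi, h⟩ := exists_of_mul_eq_zero hn (z := w - w0) (by linear_combination hw)
    exact ⟨i, mem_range.mpr hi, by rw [← h]; ring⟩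
  · intro i _; rfl

/-- the distribution relations for all divisors of the level -/
lemma dist_all {R : Type*} [AddCommGroup R] {c : ZMod M → R} (hc : OddDist c) :
    ∀ n : ℕ, n ∣ M → ∀ w0 : ZMod M, ∑ w ∈ fib M n ((n : ZMod M) * w0), c w = c ((n : ZMod M) * w0) := by
  intro n
  induction n using Nat.recOnMul with
  | zero =>
    intro h
    exact absurd (Nat.eq_zero_of_zero_dvd h) (NeZero.ne M)
  | one =>
    intro h w0
    rw [sum_fib h]
    simp
  | prime p hp =>
    intro h w0
    rw [sum_fib h]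
    exact hc.dist p (M / p) hp (Nat.mul_div_cancel' h) w0
  | mul a b iha ihb =>
    intro hab w0
    have ha : a ∣ M := dvd_trans (dvd_mul_right a b) hab
    have hb : b ∣ M := dvd_trans (dvd_mul_left b a) hab
    have h1 : ∑ w ∈ fib M ((a * b : ℕ) : ℤ) (((a * b : ℕ) : ZMod M) * w0), c w =
        ∑ v ∈ fib M a ((a : ZMod M) * ((b : ZMod M) * w0)), ∑ w ∈ fib M b v, c w := by
      symm
      rw [sum_sigma']
      refine sum_bij (fun p _ => p.2) ?_ ?_ ?_ ?_
      · rintro ⟨v, w⟩ hvw
        simp only [mem_sigma, mem_fib] at hvw ⊢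
        push_cast at hvw ⊢
        linear_combination hvw.1 + (a : ZMod M) * hvw.2
      · rintro ⟨v, w⟩ hvw ⟨v', w'⟩ hvw' h
        simp only [mem_sigma, mem_fib] at hvw hvw' h
        subst h
        rw [← hvw.2, ← hvw'.2]
      · intro w hw
        rw [mem_fib] at hw
        refine ⟨⟨(b : ZMod M) * w, w⟩, ?_, rfl⟩
        simp only [mem_sigma, mem_fib]
        push_cast at hw ⊢
        exact ⟨by linear_combination hw, rfl⟩
      · intro p _; rfl
    rw [h1]
    have h2 : ∀ v ∈ fib M a ((a : ZMod M) * ((b : ZMod M) * w0)), ∑ w ∈ fib M b v, c w = c v := by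
      intro v hv
      rw [mem_fib] at hv
      push_cast at hv
      obtain ⟨i, _, hi⟩ := exists_of_mul_eq_zero ha (z := v - (b : ZMod M) * w0)
        (by linear_combination hv)
      obtain ⟨q, hq⟩ := hab
      have ha0 : 0 < a := Nat.pos_of_dvd_of_pos ha (NeZero.pos M)
      have hMa : M / a = b * q := by
        rw [hq, mul_assoc]
        exact Nat.mul_div_cancel_left _ ha0
      have hv2 : v = (b : ZMod M) * (w0 + (i : ZMod M) * (q : ZMod M)) := by
        rw [hMa] at hi
        push_cast at hi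
        linear_combination hi
      rw [hv2]
      exact ihb hb _
    rw [sum_congr rfl h2, iha ha]
    congr 1
    push_cast; ring

/-- character sums over division points -/
lemma char_fib {n : ℕ} (hn : n ∣ M) (w0 : ZMod M) (j : ℕ) :
    ∑ w ∈ fib M n ((n : ZMod M) * w0), (ZMod.stdAddChar ((j : ZMod M) * w) : ℂ) =
      if n ∣ j then (n : ℂ) * ZMod.stdAddChar (((j / n : ℕ) : ZMod M) * ((n : ZMod M) * w0))
      else 0 := by
  have hM : 0 < M := NeZero.pos M
  have hn0 : 0 < n := Nat.pos_of_dvd_of_pos hn hM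
  rw [sum_fib hn]
  have h1 : ∀ i : ℕ, (ZMod.stdAddChar ((j : ZMod M) * (w0 + (i : ZMod M) * ((M / n : ℕ) : ZMod M))) : ℂ)
      = ZMod.stdAddChar ((j : ZMod M) * w0) *
        (ZMod.stdAddChar ((j : ZMod M) * ((M / n : ℕ) : ZMod M)) : ℂ) ^ i := by
    intro i
    rw [← AddChar.map_nsmul_eq_pow, ← AddChar.map_add_eq_mul]
    congr 1
    rw [nsmul_eq_mul]
    ring
  rw [sum_congr rfl fun i _ => h1 i, ← mul_sum]
  obtain ⟨q, hq⟩ := hn
  have hMn : M / n = q := by
    conv_lhs => rw [hq]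
    exact Nat.mul_div_cancel_left _ hn0
  have hq0 : 0 < q := Nat.pos_of_ne_zero (by rintro rfl; rw [mul_zero] at hq; omega)
  set z : ℂ := ZMod.stdAddChar ((j : ZMod M) * ((M / n : ℕ) : ZMod M)) with hz
  have hzn : z ^ n = 1 := by
    rw [hz, ← AddChar.map_nsmul_eq_pow, nsmul_eq_mul]
    have : (n : ZMod M) * ((j : ZMod M) * ((M / n : ℕ) : ZMod M)) = 0 := by
      have := mul_div_zero (M := M) (n := n) ⟨q, hq⟩
      linear_combination (j : ZMod M) * this
    rw [this, AddChar.map_zero_eq_one]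
  have hz1 : z = 1 ↔ n ∣ j := by
    constructor
    · intro h
      have h2 : (j : ZMod M) * ((M / n : ℕ) : ZMod M) = 0 := by
        apply ZMod.injective_stdAddChar
        rw [← hz, h, AddChar.map_zero_eq_one]
      rw [hMn] at h2
      have h3 : ((j * q : ℕ) : ZMod M) = 0 := by push_cast; exact h2
      rw [ZMod.natCast_eq_zero_iff] at h3
      have h4 : n * q ∣ j * q := by rw [← hq]; exact h3
      exact Nat.dvd_of_mul_dvd_mul_right hq0 h4
    · rintro ⟨j', rfl⟩
      rw [hz]
      have : ((n * j' : ℕ) : ZMod M) * ((M / n : ℕ) : ZMod M) = 0 := by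
        have := mul_div_zero (M := M) (n := n) ⟨q, hq⟩
        push_cast
        linear_combination (j' : ZMod M) * this
      rw [this, AddChar.map_zero_eq_one]
  split_ifs with h
  · rw [hz1.mpr h]
    simp only [one_pow, sum_const, card_range, nsmul_eq_mul, mul_one]
    rw [mul_comm]
    congr 2
    obtain ⟨j', rfl⟩ := h
    rw [Nat.mul_div_cancel_left _ hn0]
    push_cast; ring
  · have h5 : z ≠ 1 := fun h' => h (hz1.mp h')
    have h6 := geom_sum_mul z n
    rw [hzn, sub_self] at h6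
    rw [(mul_eq_zero.mp h6).resolve_right (sub_ne_zero.mpr h5), mul_zero]

lemma card_fib {n : ℕ} (hn : n ∣ M) (w0 : ZMod M) : (fib M n ((n : ZMod M) * w0)).card = n := by
  have := sum_fib hn (fun _ => (1 : ℕ)) w0
  simpa using this

end Pool.Agent.N997
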