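import Mathlib

/-!
Elementary estimates for roots of unity near `1`.
-/

namespace Pool.Agent.N997

open Finset

/-- `exp (2 π i y)` -/
noncomputable def ee (y : ℝ) : ℂ := Complex.exp (Complex.I * ((2 * Real.pi * y : ℝ) : ℂ))

lemma ee_norm (y : ℝ) : ‖ee y‖ = 1 := Complex.norm_exp_I_mul_ofReal _

lemma ee_add (y z : ℝ) : ee (y + z) = ee y * ee z := by
  unfold ee
  rw [← Complex.exp_add]
  congr 1
  push_cast; ring

lemma ee_zero : ee 0 = 1 := by unfold ee; simp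

lemma ee_natMul (n : ℕ) (y : ℝ) : ee (n * y) = ee y ^ n := by
  unfold ee
  rw [← Complex.exp_nat_mul]
  congr 1
  push_cast; ring

lemma ee_sub_one_le (y : ℝ) : ‖ee y - 1‖ ≤ 2 * Real.pi * |y| := by
  have := Real.norm_exp_I_mul_ofReal_sub_one_le (x := 2 * Real.pi * y)
  unfold ee
  rw [Real.norm_eq_abs, abs_mul, abs_of_pos (by positivity : (0 : ℝ) < 2 * Real.pi)] at this
  exact this

lemma ee_sub_le (y z : ℝ) : ‖ee y - ee z‖ ≤ 2 * Real.pi * |y - z| := by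
  have h : ee y - ee z = ee z * (ee (y - z) - 1) := by
    have : ee y = ee z * ee (y - z) := by rw [← ee_add]; congr 1; ring
    rw [this]; ring
  rw [h, norm_mul, ee_norm, one_mul]
  exact ee_sub_one_le _

lemma le_ee_sub_one {y : ℝ} (hy : |y| ≤ 1 / 2) : 4 * |y| ≤ ‖1 - ee y‖ := by
  rw [norm_sub_rev]
  unfold ee
  rw [Complex.norm_exp_I_mul_ofReal_sub_one, Real.norm_eq_abs, abs_mul]
  have h0 : 2 * Real.pi * y / 2 = Real.pi * y := by ring
  rw [h0]
  have h1 : |Real.sin (Real.pi * y)| = Real.sin (Real.pi * |y|) := by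
    rcases le_total 0 y with h | h
    · rw [abs_of_nonneg h, abs_of_nonneg]
      apply Real.sin_nonneg_of_nonneg_of_le_pi
      · positivity
      · rw [abs_of_nonneg h] at hy
        nlinarith [Real.pi_pos]
    · rw [abs_of_nonpos h, abs_of_nonpos]
      · rw [mul_neg, Real.sin_neg]
      · rw [abs_of_nonpos h] at hy
        have h2 : 0 ≤ Real.sin (Real.pi * (-y)) := by
          apply Real.sin_nonneg_of_nonneg_of_le_pi
          · nlinarith [Real.pi_pos]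
          · nlinarith [Real.pi_pos]
        rw [mul_neg, Real.sin_neg] at h2
        linarith
  rw [h1]
  have h2 := Real.mul_le_sin (x := Real.pi * |y|) (by positivity) (by nlinarith [Real.pi_pos])
  have h3 : 2 / Real.pi * (Real.pi * |y|) = 2 * |y| := by
    field_simp
  rw [h3] at h2
  rw [abs_of_pos (by norm_num : (0 : ℝ) < 2)]
  linarith

/-- the normalised kernel -/
noncomputable def kap (Q : ℕ) (j : ℤ) : ℂ := (1 - ee (1 / Q)) / (1 - ee (j / Q))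

lemma norm_kap_le {Q : ℕ} (hQ : 0 < Q) {j : ℤ} (hj : j ≠ 0) (hjQ : 2 * |j| ≤ Q) :
    |(j : ℝ)| * ‖kap Q j‖ ≤ Real.pi / 2 := by
  have hQ' : (0 : ℝ) < Q := by exact_mod_cast hQ
  have hj' : 0 < |(j : ℝ)| := by
    rw [abs_pos]; exact_mod_cast hj
  have hjQ' : 2 * |(j : ℝ)| ≤ Q := by exact_mod_cast hjQ
  have h1 : ‖1 - ee (1 / Q)‖ ≤ 2 * Real.pi * (1 / Q) := by
    rw [norm_sub_rev]
    have := ee_sub_one_le (1 / Q)
    rwa [abs_of_pos (by positivity : (0 : ℝ) < 1 / Q)] at this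
  have h2 : 4 * (|(j : ℝ)| / Q) ≤ ‖1 - ee (j / Q)‖ := by
    have h3 : |(j : ℝ) / Q| = |(j : ℝ)| / Q := by rw [abs_div, abs_of_pos hQ']
    rw [← h3]
    apply le_ee_sub_one
    rw [h3, div_le_div_iff₀ hQ' (by norm_num)]
    linarith
  have h4 : 0 < ‖1 - ee (j / Q)‖ := lt_of_lt_of_le (by positivity) h2
  unfold kap
  rw [norm_div, mul_div_assoc', div_le_iff₀ h4]
  calc |(j : ℝ)| * ‖1 - ee (1 / Q)‖ ≤ |(j : ℝ)| * (2 * Real.pi * (1 / Q)) := by gcongr
    _ = Real.pi / 2 * (4 * (|(j : ℝ)| / Q)) := by ring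
    _ ≤ _ := by
        apply mul_le_mul_of_nonneg_left h2
        positivity

lemma one_sub_ee_nat {Q : ℕ} (n : ℕ) :
    1 - ee ((n : ℝ) / Q) = (1 - ee (1 / Q)) * ∑ l ∈ range n, ee (1 / Q) ^ l := by
  have h : ee ((n : ℝ) / Q) = ee (1 / Q) ^ n := by
    rw [← ee_natMul]; congr 1; ring
  rw [h, mul_comm]
  have := geom_sum_mul (ee (1 / Q)) n
  linear_combination this

lemma kap_nat {Q : ℕ} (hQ : 0 < Q) {n : ℕ} (hn : 0 < n) (hnQ : 2 * n ≤ Q) :
    ‖(n : ℂ) * kap Q n - 1‖ ≤ Real.pi ^ 2 / 2 * (n / Q) := by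
  have hQ' : (0 : ℝ) < Q := by exact_mod_cast hQ
  have hn' : (0 : ℝ) < n := by exact_mod_cast hn
  have hnQ' : 2 * (n : ℝ) ≤ Q := by exact_mod_cast hnQ
  have h2 : 4 * ((n : ℝ) / Q) ≤ ‖1 - ee (n / Q)‖ := by
    have h3 : |(n : ℝ) / Q| = (n : ℝ) / Q := abs_of_pos (by positivity)
    have := le_ee_sub_one (y := (n : ℝ) / Q) (by
      rw [h3, div_le_div_iff₀ hQ' (by norm_num)]; linarith)
    rwa [h3] at this
  have h4 : 0 < ‖1 - ee (n / Q)‖ := lt_of_lt_of_le (by positivity) h2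
  have h5 : (1 : ℂ) - ee (n / Q) ≠ 0 := norm_pos_iff.mp h4
  have h6 : (n : ℂ) * kap Q n - 1 = kap Q n * ∑ l ∈ range n, (1 - ee (1 / Q) ^ l) := by
    unfold kap
    have h7 : (((n : ℤ) : ℝ)) = (n : ℝ) := by push_cast; rfl
    rw [h7]
    have h8 : ∑ l ∈ range n, (1 - ee (1 / Q) ^ l) = n - ∑ l ∈ range n, ee (1 / Q) ^ l := by
      rw [sum_sub_distrib]; simp
    rw [h8, mul_sub]
    have h9 := one_sub_ee_nat (Q := Q) n
    have h10 : (1 - ee (1 / Q)) / (1 - ee (n / Q)) * ∑ l ∈ range n, ee (1 / Q) ^ l = 1 := by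
      rw [div_mul_eq_mul_div, ← h9, div_self h5]
    rw [h10]; ring
  rw [h6, norm_mul]
  have h11 : ‖∑ l ∈ range n, (1 - ee (1 / Q) ^ l)‖ ≤ ∑ l ∈ range n, 2 * Real.pi * (l / Q) := by
    apply norm_sum_le_of_le
    intro l _
    rw [norm_sub_rev, ← ee_natMul]
    have := ee_sub_one_le ((l : ℝ) * (1 / Q))
    rw [abs_of_nonneg (by positivity : (0 : ℝ) ≤ (l : ℝ) * (1 / Q))] at this
    calc _ ≤ _ := this
      _ = _ := by ring
  have h12 : ∑ l ∈ range n, 2 * Real.pi * ((l : ℝ) / Q) ≤ Real.pi * (n * n / Q) := by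
    rw [← mul_sum, ← sum_div]
    have h13 : (∑ l ∈ range n, (l : ℝ)) * 2 ≤ n * n := by
      have h14 := Finset.sum_range_id_mul_two n
      have h15 : (∑ l ∈ range n, l) * 2 ≤ n * n := by
        rw [h14]; exact Nat.mul_le_mul_left _ (Nat.sub_le _ _)
      rw [← Nat.cast_sum]
      exact_mod_cast h15
    have h16 : 2 * Real.pi * ((∑ l ∈ range n, (l : ℝ)) / Q) =
        Real.pi * ((∑ l ∈ range n, (l : ℝ)) * 2 / Q) := by ring
    rw [h16]
    gcongr
  have h17 := norm_kap_le hQ (j := (n : ℤ)) (by exact_mod_cast hn.ne') (by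
    rw [abs_of_nonneg (by positivity)]; exact_mod_cast hnQ)
  have h18 : |(((n : ℤ) : ℝ))| = (n : ℝ) := by push_cast; exact abs_of_pos hn'
  rw [h18] at h17
  calc ‖kap Q n‖ * ‖∑ l ∈ range n, (1 - ee (1 / Q) ^ l)‖
      ≤ ‖kap Q n‖ * (Real.pi * (n * n / Q)) :=
        mul_le_mul_of_nonneg_left (h11.trans h12) (norm_nonneg _)
    _ = (n * ‖kap Q n‖) * (Real.pi * (n / Q)) := by ring
    _ ≤ (Real.pi / 2) * (Real.pi * (n / Q)) := by
        apply mul_le_mul_of_nonneg_right h17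
        positivity
    _ = _ := by ring

lemma kap_neg {Q : ℕ} (n : ℕ) : kap Q (-(n : ℤ)) = - ee (n / Q) * kap Q n := by
  unfold kap
  have h7 : (((n : ℤ) : ℝ)) = (n : ℝ) := by push_cast; rfl
  have h8 : (((-(n : ℤ) : ℤ) : ℝ)) = -(n : ℝ) := by push_cast; rfl
  rw [h7, h8]
  have h1 : ee (-(n : ℝ) / Q) * ee (n / Q) = 1 := by
    rw [← ee_add, ← ee_zero]; congr 1; ring
  have h2 : (1 : ℂ) - ee (n / Q) = - ee (n / Q) * (1 - ee (-(n : ℝ) / Q)) := by
    linear_combination -h1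
  have h3 : ee ((n : ℝ) / Q) ≠ 0 := by
    intro h; rw [h, mul_zero] at h1; exact zero_ne_one h1
  rw [h2, mul_div_assoc']
  rw [mul_comm (- ee (n / Q)) (1 - ee (1 / Q)), mul_comm (- ee (n / Q)) (1 - ee (-(n : ℝ) / Q)),
    mul_div_mul_right _ _ (neg_ne_zero.mpr h3)]

lemma kap_int {Q : ℕ} (hQ : 0 < Q) {j : ℤ} (hj : j ≠ 0) (hjQ : 2 * |j| ≤ Q) :
    ‖(j : ℂ) * kap Q j - 1‖ ≤ 3 * Real.pi ^ 2 / 2 * (|(j : ℝ)| / Q) := by
  have hQ' : (0 : ℝ) < Q := by exact_mod_cast hQ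
  rcases Int.eq_nat_or_neg j with ⟨n, rfl | rfl⟩
  · have hn : 0 < n := by omega
    rw [abs_of_nonneg (by positivity)] at hjQ
    have h1 := kap_nat hQ hn (by exact_mod_cast hjQ)
    have h2 : |(((n : ℤ) : ℝ))| = (n : ℝ) := by push_cast; exact abs_of_nonneg (by positivity)
    rw [h2]
    push_cast
    have : 0 ≤ Real.pi ^ 2 * ((n : ℝ) / Q) := by positivity
    calc _ ≤ _ := h1
      _ ≤ _ := by nlinarith
  · have hn : 0 < n := by omega
    rw [abs_neg, abs_of_nonneg (by positivity)] at hjQ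
    have hnQ : 2 * n ≤ Q := by exact_mod_cast hjQ
    have h1 := kap_nat hQ hn hnQ
    have h2 : |(((-(n : ℤ) : ℤ) : ℝ))| = (n : ℝ) := by
      push_cast; rw [abs_neg]; exact abs_of_nonneg (by positivity)
    rw [h2, kap_neg]
    have h3 : (((-(n : ℤ) : ℤ) : ℂ)) * (- ee (n / Q) * kap Q n) - 1 =
        (ee (n / Q) - 1) * (n * kap Q n) + (n * kap Q n - 1) := by
      push_cast; ring
    rw [h3]
    have h4 := ee_sub_one_le ((n : ℝ) / Q)
    rw [abs_of_nonneg (by positivity : (0 : ℝ) ≤ (n : ℝ) / Q)] at h4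
    have h5 := norm_kap_le hQ (j := (n : ℤ)) (by exact_mod_cast hn.ne') (by
      rw [abs_of_nonneg (by positivity)]; exact_mod_cast hnQ)
    have h6 : |(((n : ℤ) : ℝ))| = (n : ℝ) := by push_cast; exact abs_of_nonneg (by positivity)
    rw [h6] at h5
    calc ‖(ee (n / Q) - 1) * (n * kap Q n) + (n * kap Q n - 1)‖
        ≤ ‖(ee (n / Q) - 1) * (n * kap Q n)‖ + ‖(n : ℂ) * kap Q n - 1‖ := norm_add_le _ _
      _ = ‖ee (n / Q) - 1‖ * (n * ‖kap Q n‖) + ‖(n : ℂ) * kap Q n - 1‖ := by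
          rw [norm_mul, norm_mul, Complex.norm_natCast]
      _ ≤ (2 * Real.pi * (n / Q)) * (Real.pi / 2) + Real.pi ^ 2 / 2 * (n / Q) := by
          apply add_le_add _ h1
          apply mul_le_mul h4 h5 (by positivity) (by positivity)
      _ = _ := by ring

/-- the comparison of one term with its limit -/
theorem term_est {Q : ℕ} (hQ : 0 < Q) {j : ℤ} (hj : j ≠ 0) (hjQ : 2 * |j| ≤ Q) {α y : ℝ}
    (hα : |α - y| ≤ 1 / Q) :
    ‖(j : ℂ) * (ee (j * y) * kap Q j) - ee (j * α)‖ ≤ 25 * (|(j : ℝ)| / Q) := by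
  have hQ' : (0 : ℝ) < Q := by exact_mod_cast hQ
  have h1 : (j : ℂ) * (ee (j * y) * kap Q j) - ee (j * α) =
      (j * kap Q j) * (ee (j * y) - ee (j * α)) + (j * kap Q j - 1) * ee (j * α) := by ring
  rw [h1]
  have h2 := ee_sub_le ((j : ℝ) * y) (j * α)
  have h3 : |(j : ℝ) * y - j * α| ≤ |(j : ℝ)| * (1 / Q) := by
    rw [← mul_sub, abs_mul, abs_sub_comm]
    gcongr
  have h4 := norm_kap_le hQ hj hjQ
  have h5 := kap_int hQ hj hjQ
  have hpi : Real.pi ^ 2 ≤ 9.88 := by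
    have := Real.pi_lt_d4
    have h0 := Real.pi_pos
    nlinarith
  calc ‖(j * kap Q j) * (ee (j * y) - ee (j * α)) + (j * kap Q j - 1) * ee (j * α)‖
      ≤ ‖(j * kap Q j) * (ee (j * y) - ee (j * α))‖ + ‖(j * kap Q j - 1) * ee (j * α)‖ :=
        norm_add_le _ _
    _ = (|(j : ℝ)| * ‖kap Q j‖) * ‖ee (j * y) - ee (j * α)‖ + ‖(j : ℂ) * kap Q j - 1‖ := by
        rw [norm_mul, norm_mul, norm_mul, ee_norm, mul_one, Complex.norm_intCast]
    _ ≤ (Real.pi / 2) * (2 * Real.pi * (|(j : ℝ)| * (1 / Q))) +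
        3 * Real.pi ^ 2 / 2 * (|(j : ℝ)| / Q) := by
        apply add_le_add _ h5
        apply mul_le_mul h4 (h2.trans (by gcongr)) (norm_nonneg _) (by positivity)
    _ = (5 / 2 * Real.pi ^ 2) * (|(j : ℝ)| / Q) := by ring
    _ ≤ 25 * (|(j : ℝ)| / Q) := by
        apply mul_le_mul_of_nonneg_right _ (by positivity)
        linarith

end Pool.Agent.N997
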