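import Pool.Agent.N997.Star
import Pool.Agent.N997.Est

/-!
The exact vanishing of the Fourier coefficients at the frequencies of one class.
-/

namespace Pool.Agent.N997

open Finset Pool.Agent.H916R2

variable {m d Q : ℕ} [NeZero m] [NeZero Q]

lemma std_int (j : ℤ) : (ZMod.stdAddChar ((j : ZMod Q)) : ℂ) = ee (j / Q) := by
  rw [ZMod.stdAddChar_coe]
  unfold ee
  congr 1
  push_cast; ring

lemma TT'_eq (b : ZMod m) (z : ℤ) :
    (1 - ee (1 / Q)) * TT' d b ((z : ZMod Q)) =
      ee (z * ((((b.val / d : ℕ) : ℝ) + 1) / Q)) * kap Q z := by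
  unfold TT' kap
  rw [std_int]
  have h1 : ((z : ZMod Q)) * (dig d Q b + 1) =
      (((z * (((b.val / d : ℕ) : ℤ) + 1) : ℤ)) : ZMod Q) := by
    unfold dig
    rw [Int.cast_mul, Int.cast_add, Int.cast_natCast, Int.cast_one]
  rw [h1, std_int]
  have h2 : (((z * (((b.val / d : ℕ) : ℤ) + 1) : ℤ)) : ℝ) / Q =
      z * ((((b.val / d : ℕ) : ℝ) + 1) / Q) := by
    rw [Int.cast_mul, Int.cast_add, Int.cast_natCast, Int.cast_one]; ring
  rw [h2]
  ring

lemma alpha_close (h : d * Q = m) (b : ZMod m) :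
    |((b.val : ℝ) / m) - (((b.val / d : ℕ) : ℝ) + 1) / Q| ≤ 1 / Q := by
  have hd : 0 < d := Nat.pos_of_ne_zero (by rintro rfl; simp at h; exact NeZero.ne m h.symm)
  have hd' : (0 : ℝ) < d := by exact_mod_cast hd
  have hQ : (0 : ℝ) < Q := by exact_mod_cast NeZero.pos Q
  have hm : (m : ℝ) = d * Q := by exact_mod_cast h.symm
  have h1 : ((b.val : ℝ) / m) = ((b.val : ℝ) / d) / Q := by rw [hm, div_div]
  rw [h1, ← sub_div, abs_div, abs_of_pos hQ]
  apply div_le_div_of_nonneg_right _ hQ.le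
  have h2 : ((b.val / d : ℕ) : ℝ) ≤ (b.val : ℝ) / d := Nat.cast_div_le
  have h3 : (b.val : ℝ) / d < ((b.val / d : ℕ) : ℝ) + 1 := by
    rw [div_lt_iff₀ hd']
    have := Nat.lt_mul_div_succ b.val hd
    have h4 : (b.val : ℝ) < ((d * (b.val / d + 1) : ℕ) : ℝ) := by exact_mod_cast this
    rw [Nat.cast_mul, Nat.cast_add, Nat.cast_one] at h4
    linarith
  rw [abs_le]
  constructor <;> linarith

lemma ee_val (z : ℤ) (b : ZMod m) :
    ee (z * ((b.val : ℝ) / m)) = ZMod.stdAddChar ((z : ZMod m) * b) := by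
  have h : (z : ZMod m) * b = ((z * b.val : ℤ) : ZMod m) := by
    push_cast; rw [ZMod.natCast_zmod_val]
  rw [h, std_int]
  congr 1
  push_cast; ring

open scoped Classical in
/-- the exact relation at the frequency `j` -/
theorem freq {p : ℕ} (h : d * Q = m) (x : ZMod m → ℤ) (hx : Rel x) (k : ℕ)
    (hk : ∑ a, |x a| ≤ k) (hloc : Loc Q)
    (hunit : ∃ s0 : ZMod Q, ∀ s, s ≠ s0 → IsUnit (1 + iota d s : ZMod m)) (hQ1 : 1 < Q)
    (hpu : ∀ z : ℤ, ¬ (p : ℤ) ∣ z → IsUnit (z : ZMod Q))
    (S : Finset (ZMod m)) (n : ZMod m → ℤ) (β0 : ZMod Q) (hβ0 : IsUnit β0) (U N Jp : ℕ)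
    (hS : ∀ a ∈ S, ¬ (p : ℤ) ∣ n a ∧ |n a| ≤ N ∧ bt h a = (n a : ZMod Q) * β0)
    (hout : ∀ a, a ∉ S → x a ≠ 0 → IsUnit (bt h a) → ∀ j : ℕ, 1 ≤ j → j ≤ U → ¬ p ∣ j →
      ∀ z : ℤ, (z : ZMod Q) * bt h a = (j : ZMod Q) * β0 → (Jp : ℤ) < |z|)
    (h1 : N * Jp + U < Q) (h2 : 2 * U < Q) (h3 : 58 * k * U ≤ Q) (h4 : 4 * k * U ≤ Jp)
    (j : ℕ) (hj1 : 1 ≤ j) (hjU : j ≤ U) (hpj : ¬ p ∣ j) :
    ∑ a ∈ S.filter (fun a => n a ∣ j),
      ((x a * n a : ℤ) : ℂ) * ZMod.stdAddChar ((((j : ℤ) / n a : ℤ) : ZMod m) * a) = 0 := by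
  have hQ0 : 0 < Q := NeZero.pos Q
  have hQ' : (0 : ℝ) < Q := by exact_mod_cast hQ0
  -- the pushed function
  set y : ZMod m → ℤ := fun b => ∑ a ∈ S.filter (fun a => n a ∣ j),
    if (((j : ℤ) / n a : ℤ) : ZMod m) * a = b then x a * n a else 0 with hy
  have hEV : ∀ t : ZMod m, EV y t = ∑ a ∈ S.filter (fun a => n a ∣ j),
      ((x a * n a : ℤ) : ℂ) * ZMod.stdAddChar ((((j : ℤ) / n a : ℤ) : ZMod m) * (t * a)) := by
    intro t
    unfold EV
    rw [hy]
    have e1 : ∀ b : ZMod m, (((∑ a ∈ S.filter (fun a => n a ∣ j),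
        if (((j : ℤ) / n a : ℤ) : ZMod m) * a = b then x a * n a else 0 : ℤ)) : ℂ) *
        ZMod.stdAddChar (t * b) = ∑ a ∈ S.filter (fun a => n a ∣ j),
        if (((j : ℤ) / n a : ℤ) : ZMod m) * a = b then ((x a * n a : ℤ) : ℂ) *
        ZMod.stdAddChar (t * b) else 0 := by
      intro b
      rw [Int.cast_sum, sum_mul]
      refine sum_congr rfl fun a _ => ?_
      split_ifs <;> simp
    rw [sum_congr rfl fun b _ => e1 b, sum_comm]
    refine sum_congr rfl fun a _ => ?_
    rw [Finset.sum_ite_eq]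
    simp only [mem_univ, if_true]
    congr 2; ring
  have hgoal : EV y 1 = 0 := by
    apply EV_eq_zero
    intro t
    rw [hEV]
    -- the frequency
    have hju : IsUnit ((j : ℕ) : ZMod Q) := by
      have := hpu (j : ℤ) (by exact_mod_cast hpj)
      simpa using this
    set h0 : ZMod Q := (j : ZMod Q) * β0 with hh0
    have hh0u : IsUnit h0 := hju.mul hβ0
    have hst := star h x hx k hk hloc hunit t h0 hh0u hQ1
    set g : ZMod m → ZMod Q := fun a => h0 * (bt h a)⁻¹ with hg
    set z : ZMod m → ℤ := fun a => (g a).valMinAbs with hz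
    have hzg : ∀ a, ((z a : ℤ) : ZMod Q) = g a := fun a => ZMod.coe_valMinAbs _
    have hzQ : ∀ a, 2 * |z a| ≤ Q := by
      intro a
      have := ZMod.natAbs_valMinAbs_le (g a)
      change 2 * |(g a).valMinAbs| ≤ (Q : ℤ)
      rw [Int.abs_eq_natAbs]
      omega
    have hgbt : ∀ a, IsUnit (bt h a) → g a * bt h a = h0 := by
      intro a ha
      have := ZMod.mul_inv_of_unit _ ha
      simp only [hg]
      linear_combination h0 * this
    have hz0 : ∀ a, IsUnit (bt h a) → z a ≠ 0 := by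
      intro a ha h5
      have h6 := hgbt a ha
      rw [← hzg a, h5] at h6
      have hnt : Nontrivial (ZMod Q) := by
        have : Fact (1 < Q) := ⟨hQ1⟩
        infer_instance
      simp only [Int.cast_zero, zero_mul] at h6
      exact hh0u.ne_zero h6.symm
    -- units in the class
    have hSu : ∀ a ∈ S, IsUnit (bt h a) := by
      intro a ha
      obtain ⟨h5, _, h7⟩ := hS a ha
      rw [h7]
      exact (hpu _ h5).mul hβ0
    -- exact quotients
    have hzq : ∀ a ∈ S, n a ∣ j → z a = (j : ℤ) / n a ∧ n a * z a = j := by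
      intro a ha hd
      obtain ⟨h5, h6, h7⟩ := hS a ha
      obtain ⟨q, hq⟩ := hd
      have hn0 : n a ≠ 0 := by rintro h8; rw [h8] at h5; exact h5 (dvd_zero _)
      have hq1 : (j : ℤ) / n a = q := by rw [hq]; exact Int.mul_ediv_cancel_left q hn0
      have h8 : ((z a : ℤ) : ZMod Q) = ((q : ℤ) : ZMod Q) := by
        have h9 := hgbt a (hSu a ha)
        rw [← hzg a, h7, hh0] at h9
        have h10 : ((j : ℕ) : ZMod Q) = (n a : ZMod Q) * (q : ZMod Q) := by
          have : (((j : ℕ) : ℤ) : ZMod Q) = ((n a * q : ℤ) : ZMod Q) := by rw [hq]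
          push_cast at this
          exact this
        rw [h10] at h9
        apply ((hpu _ h5).mul hβ0).mul_right_cancel
        linear_combination h9
      have hqU : |q| ≤ U := by
        have h11 : |q| ≤ |(j : ℤ)| := by
          rw [hq, abs_mul]
          have : 1 ≤ |n a| := Int.one_le_abs hn0
          nlinarith [abs_nonneg q]
        have h12 : |(j : ℤ)| = j := abs_of_nonneg (by positivity)
        rw [h12] at h11
        have : (j : ℤ) ≤ U := by exact_mod_cast hjU
        linarith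
      have h13 : z a = q := by
        have h14 : (Q : ℤ) ∣ z a - q := by
          rw [← ZMod.intCast_zmod_eq_zero_iff_dvd]
          push_cast
          rw [h8, sub_self]
        have h15 : |z a - q| < Q := by
          have h16 := abs_sub (z a) q
          have h17 := hzQ a
          have h18 : 2 * (U : ℤ) < Q := by exact_mod_cast h2
          linarith
        have := Int.eq_zero_of_abs_lt_dvd h14 h15
        omega
      exact ⟨by rw [hq1, h13], by rw [h13, hq]⟩
    -- large representatives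
    have hlarge : ∀ a, x a ≠ 0 → IsUnit (bt h a) → ¬ (a ∈ S ∧ n a ∣ j) → (Jp : ℤ) < |z a| := by
      intro a hxa hau hnot
      by_cases haS : a ∈ S
      · obtain ⟨h5, h6, h7⟩ := hS a haS
        by_contra hcon
        push Not at hcon
        apply hnot
        refine ⟨haS, ?_⟩
        have h9 := hgbt a hau
        rw [← hzg a, h7, hh0] at h9
        have h10 : ((n a * z a : ℤ) : ZMod Q) = ((j : ℤ) : ZMod Q) := by
          push_cast
          apply hβ0.mul_right_cancel
          linear_combination h9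
        have h14 : (Q : ℤ) ∣ n a * z a - j := by
          rw [← ZMod.intCast_zmod_eq_zero_iff_dvd]
          push_cast
          push_cast at h10
          rw [h10, sub_self]
        have h15 : |n a * z a - j| < Q := by
          have h16 := abs_sub (n a * z a) (j : ℤ)
          have h17 : |n a * z a| ≤ N * Jp := by
            rw [abs_mul]
            exact mul_le_mul h6 hcon (abs_nonneg _) (by positivity)
          have h18 : |(j : ℤ)| = j := abs_of_nonneg (by positivity)
          have h19 : ((N * Jp + U : ℕ) : ℤ) < Q := by exact_mod_cast h1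
          push_cast at h19
          have h20 : (j : ℤ) ≤ U := by exact_mod_cast hjU
          linarith
        have := Int.eq_zero_of_abs_lt_dvd h14 h15
        exact ⟨z a, by omega⟩
      · apply hout a haS hxa hau j hj1 hjU hpj
        rw [hzg]
        exact hgbt a hau
    -- the terms
    set τ : ZMod m → ℂ := fun a =>
      ee (z a * ((((((t : ZMod m) * a).val / d : ℕ) : ℝ) + 1) / Q)) * kap Q (z a) with hτ
    have hτTT : ∀ a, (1 - ee (1 / Q)) * TT' d ((t : ZMod m) * a) (g a) = τ a := by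
      intro a
      rw [← hzg a, TT'_eq]
    have hA : ‖∑ a ∈ univ.filter (fun a : ZMod m => IsUnit (bt h a)), (x a : ℂ) * τ a‖ ≤
        Real.pi * k / Q := by
      have e1 : ∑ a ∈ univ.filter (fun a : ZMod m => IsUnit (bt h a)), (x a : ℂ) * τ a =
          (1 - ee (1 / Q)) * ∑ a ∈ univ.filter (fun a : ZMod m => IsUnit (bt h a)),
            (x a : ℂ) * TT' d ((t : ZMod m) * a) (h0 * (bt h a)⁻¹) := by
        rw [mul_sum]
        refine sum_congr rfl fun a _ => ?_
        rw [← hτTT a]
        simp only [hg]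
        ring
      rw [e1, norm_mul]
      have e2 : ‖1 - ee (1 / Q)‖ ≤ 2 * Real.pi * (1 / Q) := by
        rw [norm_sub_rev]
        have := ee_sub_one_le (1 / Q)
        rwa [abs_of_pos (by positivity : (0 : ℝ) < 1 / Q)] at this
      calc _ ≤ (2 * Real.pi * (1 / Q)) * ((k : ℝ) / 2) := by
            apply mul_le_mul e2 hst (norm_nonneg _) (by positivity)
        _ = _ := by ring
    -- split the sum
    set F := univ.filter (fun a : ZMod m => IsUnit (bt h a)) with hF
    set G := S.filter (fun a => n a ∣ (j : ℤ)) with hGdef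
    have hGF : G ⊆ F := by
      intro a ha
      rw [hGdef, mem_filter] at ha
      rw [hF, mem_filter]
      exact ⟨mem_univ _, hSu a ha.1⟩
    have hsplit : ∑ a ∈ F, (x a : ℂ) * τ a = ∑ a ∈ F \ G, (x a : ℂ) * τ a +
        ∑ a ∈ G, (x a : ℂ) * τ a := (sum_sdiff hGF).symm
    have hkR : ∑ a, |(x a : ℝ)| ≤ k := by
      have : ((∑ a, |x a| : ℤ) : ℝ) ≤ ((k : ℤ) : ℝ) := by exact_mod_cast hk
      push_cast at this
      exact this
    have hJp : 0 < Jp ∨ k = 0 ∨ U = 0 := by
      rcases Nat.eq_zero_or_pos Jp with h5 | h5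
      · right
        rw [h5] at h4
        have : 4 * k * U = 0 := by omega
        rcases Nat.mul_eq_zero.mp this with h6 | h6
        · left; omega
        · right; exact h6
      · left; exact h5
    have hU0 : 0 < U := by omega
    have hB : (j : ℝ) * ‖∑ a ∈ F \ G, (x a : ℂ) * τ a‖ ≤ 2 / 5 := by
      have e1 : ‖∑ a ∈ F \ G, (x a : ℂ) * τ a‖ ≤ ∑ a ∈ F \ G, |(x a : ℝ)| *
          (if x a = 0 then 0 else ‖τ a‖) := by
        apply norm_sum_le_of_le
        intro a _
        split_ifs with h5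
        · rw [h5]; simp
        · rw [norm_mul, Complex.norm_intCast]
      have e2 : ∀ a ∈ F \ G, |(x a : ℝ)| * (if x a = 0 then 0 else ‖τ a‖) * (j : ℝ) ≤
          |(x a : ℝ)| * (Real.pi / 8 / k) := by
        intro a ha
        rw [mem_sdiff, hF, mem_filter] at ha
        split_ifs with h5
        · rw [h5]; simp
        · have hau := ha.1.2
          have hnot : ¬ (a ∈ S ∧ n a ∣ (j : ℤ)) := by
            intro h6
            apply ha.2
            rw [hGdef, mem_filter]
            exact h6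
          have h6 := hlarge a h5 hau hnot
          have hk0 : 0 < k := by
            by_contra hcon
            have h7 : k = 0 := by omega
            rw [h7] at hk
            have h8 : |x a| ≤ ∑ b, |x b| :=
              Finset.single_le_sum (f := fun b => |x b|) (fun b _ => abs_nonneg _) (mem_univ a)
            have h9 : 1 ≤ |x a| := Int.one_le_abs h5
            push_cast at hk
            omega
          have hJp0 : 0 < Jp := by
            have : 0 < 4 * k * U := by positivity
            omega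
          have h7 := norm_kap_le hQ0 (hz0 a hau) (hzQ a)
          have h8 : ‖τ a‖ = ‖kap Q (z a)‖ := by
            rw [hτ]; simp only; rw [norm_mul, ee_norm, one_mul]
          have h9 : (Jp : ℝ) ≤ |((z a : ℤ) : ℝ)| := by
            have : ((Jp : ℤ) : ℝ) ≤ ((|z a| : ℤ) : ℝ) := by exact_mod_cast h6.le
            push_cast at this
            exact this
          have h10 : (Jp : ℝ) * ‖kap Q (z a)‖ ≤ Real.pi / 2 := by
            calc _ ≤ |((z a : ℤ) : ℝ)| * ‖kap Q (z a)‖ :=
                  mul_le_mul_of_nonneg_right h9 (norm_nonneg _)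
              _ ≤ _ := h7
          have hkR' : (0 : ℝ) < k := by exact_mod_cast hk0
          have h11 : 4 * (k : ℝ) * j ≤ Jp := by
            have h12 : 4 * (k : ℝ) * U ≤ Jp := by exact_mod_cast h4
            have h13 : (j : ℝ) ≤ U := by exact_mod_cast hjU
            nlinarith
          have h12 : ‖kap Q (z a)‖ * j ≤ Real.pi / 8 / k := by
            rw [le_div_iff₀ hkR']
            have h13 : 4 * (k : ℝ) * j * ‖kap Q (z a)‖ ≤ Jp * ‖kap Q (z a)‖ :=
              mul_le_mul_of_nonneg_right h11 (norm_nonneg _)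
            nlinarith
          rw [h8, mul_assoc]
          exact mul_le_mul_of_nonneg_left h12 (abs_nonneg _)
      have e3 : (∑ a ∈ F \ G, |(x a : ℝ)| * (if x a = 0 then 0 else ‖τ a‖)) * (j : ℝ) ≤
          (∑ a ∈ F \ G, |(x a : ℝ)|) * (Real.pi / 8 / k) := by
        rw [sum_mul, sum_mul]
        exact sum_le_sum e2
      have e4 : ∑ a ∈ F \ G, |(x a : ℝ)| ≤ k :=
        (sum_le_univ_sum_of_nonneg fun a => abs_nonneg _).trans hkR
      have hpi := Real.pi_lt_d2
      have hpi0 := Real.pi_pos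
      have e5 : (∑ a ∈ F \ G, |(x a : ℝ)|) * (Real.pi / 8 / k) ≤ 2 / 5 := by
        rcases Nat.eq_zero_or_pos k with h5 | h5
        · rw [h5]; simp; norm_num
        · have h6 : (0 : ℝ) < k := by exact_mod_cast h5
          calc _ ≤ (k : ℝ) * (Real.pi / 8 / k) := by
                apply mul_le_mul_of_nonneg_right e4
                positivity
            _ = Real.pi / 8 := by field_simp
            _ ≤ 2 / 5 := by linarith
      calc (j : ℝ) * ‖∑ a ∈ F \ G, (x a : ℂ) * τ a‖
          ≤ (j : ℝ) * ∑ a ∈ F \ G, |(x a : ℝ)| * (if x a = 0 then 0 else ‖τ a‖) :=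
            mul_le_mul_of_nonneg_left e1 (Nat.cast_nonneg _)
        _ = (∑ a ∈ F \ G, |(x a : ℝ)| * (if x a = 0 then 0 else ‖τ a‖)) * (j : ℝ) := mul_comm _ _
        _ ≤ _ := e3.trans e5
    have hC : ‖∑ a ∈ G, ((x a * n a : ℤ) : ℂ) *
        ZMod.stdAddChar ((((j : ℤ) / n a : ℤ) : ZMod m) * ((t : ZMod m) * a)) -
        (j : ℂ) * ∑ a ∈ G, (x a : ℂ) * τ a‖ ≤ 25 * (k * j / Q) := by
      rw [mul_sum, ← sum_sub_distrib]
      have e1 : ∀ a ∈ G, ‖((x a * n a : ℤ) : ℂ) *
        ZMod.stdAddChar ((((j : ℤ) / n a : ℤ) : ZMod m) * ((t : ZMod m) * a)) -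
        (j : ℂ) * ((x a : ℂ) * τ a)‖ ≤ |(x a : ℝ)| * (25 * (j / Q)) := by
        intro a ha
        rw [hGdef, mem_filter] at ha
        obtain ⟨h5, h6⟩ := hzq a ha.1 ha.2
        have h7 : (j : ℂ) = (n a : ℂ) * (z a : ℂ) := by
          have : (((j : ℕ) : ℤ) : ℂ) = ((n a * z a : ℤ) : ℂ) := by rw [h6]
          push_cast at this
          exact this
        rw [← h5, ← ee_val, h7]
        have h8 : ((x a * n a : ℤ) : ℂ) * ee (z a * ((((t : ZMod m) * a).val : ℝ) / m)) -
            (n a : ℂ) * (z a : ℂ) * ((x a : ℂ) * τ a) =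
            -((x a : ℂ) * (n a : ℂ) * ((z a : ℂ) * τ a -
              ee (z a * ((((t : ZMod m) * a).val : ℝ) / m)))) := by
          push_cast; ring
        rw [h8, norm_neg, norm_mul, norm_mul, Complex.norm_intCast, Complex.norm_intCast]
        have h9 := term_est hQ0 (hz0 a (hSu a ha.1)) (hzQ a) (alpha_close h ((t : ZMod m) * a))
        rw [mul_assoc]
        apply mul_le_mul_of_nonneg_left _ (abs_nonneg _)
        have h10 : |((n a : ℤ) : ℝ)| * |((z a : ℤ) : ℝ)| = j := by
          rw [← abs_mul]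
          have : ((n a * z a : ℤ) : ℝ) = ((j : ℤ) : ℝ) := by rw [h6]
          push_cast at this
          rw [this]
          exact abs_of_nonneg (Nat.cast_nonneg _)
        calc |((n a : ℤ) : ℝ)| * _ ≤ |((n a : ℤ) : ℝ)| * (25 * (|((z a : ℤ) : ℝ)| / Q)) :=
              mul_le_mul_of_nonneg_left h9 (abs_nonneg _)
          _ = 25 * (|((n a : ℤ) : ℝ)| * |((z a : ℤ) : ℝ)| / Q) := by ring
          _ = _ := by rw [h10]
      calc _ ≤ ∑ a ∈ G, |(x a : ℝ)| * (25 * (j / Q)) := norm_sum_le_of_le _ e1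
        _ = (∑ a ∈ G, |(x a : ℝ)|) * (25 * (j / Q)) := by rw [sum_mul]
        _ ≤ (k : ℝ) * (25 * (j / Q)) := by
            apply mul_le_mul_of_nonneg_right _ (by positivity)
            exact (sum_le_univ_sum_of_nonneg fun a => abs_nonneg _).trans hkR
        _ = _ := by ring
    -- conclusion
    have hD : (j : ℝ) * ‖∑ a ∈ F, (x a : ℂ) * τ a‖ ≤ 4 * (k * j / Q) := by
      calc _ ≤ (j : ℝ) * (Real.pi * k / Q) := mul_le_mul_of_nonneg_left hA (Nat.cast_nonneg _)
        _ = Real.pi * (k * j / Q) := by ring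
        _ ≤ _ := by
            apply mul_le_mul_of_nonneg_right _ (by positivity)
            linarith [Real.pi_lt_d2]
    have hkj : (k : ℝ) * j / Q ≤ 1 / 58 := by
      rw [div_le_div_iff₀ hQ' (by norm_num)]
      have h5 : 58 * (k : ℝ) * U ≤ Q := by exact_mod_cast h3
      have h6 : (j : ℝ) ≤ U := by exact_mod_cast hjU
      have h7 : (0 : ℝ) ≤ k := Nat.cast_nonneg _
      nlinarith
    have hfin : ∑ a ∈ G, ((x a * n a : ℤ) : ℂ) *
        ZMod.stdAddChar ((((j : ℤ) / n a : ℤ) : ZMod m) * ((t : ZMod m) * a)) =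
        (∑ a ∈ G, ((x a * n a : ℤ) : ℂ) *
        ZMod.stdAddChar ((((j : ℤ) / n a : ℤ) : ZMod m) * ((t : ZMod m) * a)) -
        (j : ℂ) * ∑ a ∈ G, (x a : ℂ) * τ a) + ((j : ℂ) * ∑ a ∈ F, (x a : ℂ) * τ a -
        (j : ℂ) * ∑ a ∈ F \ G, (x a : ℂ) * τ a) := by
      rw [hsplit]; ring
    rw [hfin]
    have hlt : 25 * ((k : ℝ) * j / Q) + (4 * ((k : ℝ) * j / Q) + 2 / 5) < 1 := by linarith
    refine lt_of_le_of_lt ?_ hlt
    refine (norm_add_le _ _).trans (add_le_add hC ?_)
    refine (norm_sub_le _ _).trans (add_le_add ?_ ?_)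
    · rw [norm_mul, Complex.norm_natCast]; exact hD
    · rw [norm_mul, Complex.norm_natCast]; exact hB
  rw [hEV] at hgoal
  simpa using hgoal

end Pool.Agent.N997
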