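import Pool.Agent.N997.Divs

/-!
The replacement step: a periodic packet of a relation is replaced by a shorter one.
-/

namespace Pool.Agent.N997

open Finset Pool.Agent.H916R2

lemma oddDist_saw {M : ℕ} [NeZero M] (t : (ZMod M)ˣ) :
    OddDist (fun a : ZMod M => saw ((t : ZMod M) * a)) where
  neg := fun a => by simp only [mul_neg, saw_neg]
  half := fun a ha => by
    apply saw_half
    rw [← mul_add, ha, mul_zero]
  dist := fun _ _ _ hpd a => saw_dist_unit hpd t a

lemma unit_of_not_dvd {p e : ℕ} (hp : p.Prime) {z : ℤ} (hz : ¬ (p : ℤ) ∣ z) :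
    IsUnit (z : ZMod (p ^ e)) := by
  rw [ZMod.coe_int_isUnit_iff_isCoprime]
  push_cast
  apply IsCoprime.pow_left
  rw [Int.isCoprime_iff_gcd_eq_one]
  have h1 : Nat.Coprime p z.natAbs := by
    rw [hp.coprime_iff_not_dvd]
    intro h
    exact hz (Int.natCast_dvd.mpr h)
  exact h1

/-- the relation which defines the class of an entry -/
def cls (W L : ℕ) {m : ℕ} (γm : ZMod m → ZMod W) (n : ZMod m → ℤ) (ω : ZMod W) (a : ZMod m) : Prop :=
  (n a : ZMod W) * ω = (L : ZMod W) * γm a

open scoped Classical in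
theorem replace {m L p e u : ℕ} [NeZero m] [NeZero (L * m)] (hp : p.Prime) (hm : p ^ e * u = m)
    (he : 0 < e) (hu : ¬ p ∣ u) (hpL : ¬ p ∣ L) (S : Finset (ZMod m)) (x n : ZMod m → ℤ)
    (hn : ∀ a ∈ S, ¬ (p : ℤ) ∣ n a) (hnL : ∀ a ∈ S, n a ∣ (L : ℤ))
    (hper : ∀ w, DS L S x n (w + ((L * m / p : ℕ) : ZMod (L * m))) = DS L S x n w)
    (hx : Rel x) (i0 : ZMod m) (hi0 : i0 ∈ S) (hxi0 : x i0 ≠ 0) :
    ∃ x' : ZMod m → ℤ, Rel x' ∧ ∑ a, |x' a| < ∑ a, |x a| ∧
      ∀ (R : Type) [AddCommGroup R] (c : ZMod (L * m) → R), OddDist c →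
        ∑ a, x a • c (iota L a) = ∑ a, x' a • c (iota L a) := by
  have hWm : p ^ e ∣ m := Dvd.intro u hm
  have hWM : p ^ e ∣ L * m := hWm.mul_left L
  have hpm : p ∣ m := (dvd_pow_self p (by omega)).trans hWm
  have hpM : p ∣ L * m := hpm.mul_left L
  have hL0 : L ≠ 0 := by rintro rfl; exact hpL (dvd_zero p)
  have hn0 : ∀ a ∈ S, n a ≠ 0 := fun a ha h => hn a ha (h ▸ dvd_zero _)
  have hncop : ∀ a ∈ S, IsCoprime (p : ℤ) (n a) := by
    intro a ha
    rw [Int.isCoprime_iff_gcd_eq_one]
    have h1 : Nat.Coprime p (n a).natAbs := by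
      rw [hp.coprime_iff_not_dvd]
      intro h
      exact hn a ha (Int.natCast_dvd.mpr h)
    exact h1
  set W := p ^ e with hW
  have hW0 : NeZero W := ⟨by rw [hW]; exact pow_ne_zero _ hp.ne_zero⟩
  set γ : ZMod (L * m) →+* ZMod W := ZMod.castHom hWM (ZMod W) with hγ
  set γm : ZMod m →+* ZMod W := ZMod.castHom hWm (ZMod W) with hγm
  set e1 : ZMod (L * m) := ((L * m / p : ℕ) : ZMod (L * m)) with he1
  set e0 : ZMod W := γ e1 with he0
  have hpe1 : (p : ZMod (L * m)) * e1 = 0 := mul_div_zero hpM
  have hpe0 : (p : ZMod W) * e0 = 0 := by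
    have := congrArg γ hpe1
    rw [map_mul, map_natCast, map_zero] at this
    exact this
  have he0ne : e0 ≠ 0 := by
    intro h
    rw [he0, he1, map_natCast, ZMod.natCast_eq_zero_iff] at h
    have h1 : L * m = W * (L * u) := by rw [← hm]; ring
    obtain ⟨e', rfl⟩ : ∃ e', e = e' + 1 := ⟨e - 1, by omega⟩
    have h2 : L * m / p = p ^ e' * (L * u) := by
      rw [h1, hW, pow_succ]
      apply Nat.div_eq_of_eq_mul_left hp.pos
      ring
    rw [h2, hW, pow_succ] at h
    have h3 : p ∣ L * u := Nat.dvd_of_mul_dvd_mul_left (pow_pos hp.pos e') h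
    rcases hp.dvd_mul.mp h3 with h4 | h4
    · exact hpL h4
    · exact hu h4
  have hunitn : ∀ a ∈ S, IsUnit (n a : ZMod W) := fun a ha => unit_of_not_dvd hp (hn a ha)
  have hγι : ∀ a : ZMod m, γ (iota L a) = (L : ZMod W) * γm a := by
    intro a
    have h1 : (iota L a : ZMod (L * m)) = ((L * a.val : ℕ) : ZMod (L * m)) := rfl
    rw [h1, map_natCast, Nat.cast_mul]
    congr 1
    rw [hγm, ZMod.castHom_apply, ZMod.natCast_val]
  -- filtered packets
  have hfilter : ∀ (ω : ZMod W) (w : ZMod (L * m)),
      DS L (S.filter (cls W L γm n ω)) x n w = if γ w = ω then DS L S x n w else 0 := by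
    intro ω w
    unfold DS
    rw [sum_filter]
    split_ifs with h
    · refine sum_congr rfl fun a ha => ?_
      by_cases h1 : (n a : ZMod (L * m)) * w = iota L a
      · have h2 : cls W L γm n ω a := by
          unfold cls
          have h3 := congrArg γ h1
          rw [map_mul, map_intCast, hγι, h] at h3
          exact h3
        rw [if_pos h2]
      · rw [if_neg h1]; simp
    · apply sum_eq_zero
      intro a ha
      split_ifs with h1 h2
      · exfalso
        apply h
        have h3 := congrArg γ h2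
        rw [map_mul, map_intCast, hγι] at h3
        unfold cls at h1
        exact (hunitn a ha).mul_left_cancel (h3.trans h1.symm)
      · rfl
      · rfl
  have hperi : ∀ (i : ℕ) (w : ZMod (L * m)), DS L S x n (w + (i : ZMod (L * m)) * e1) =
      DS L S x n w := by
    intro i
    induction i with
    | zero => intro w; simp
    | succ i ih =>
      intro w
      have h1 : w + ((i + 1 : ℕ) : ZMod (L * m)) * e1 = (w + (i : ZMod (L * m)) * e1) + e1 := by
        push_cast; ring
      rw [h1, hper, ih]
  obtain ⟨ω0, hω0⟩ : ∃ ω0 : ZMod W, cls W L γm n ω0 i0 := by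
    obtain ⟨v, hv⟩ := (hunitn i0 hi0).exists_right_inv
    refine ⟨v * ((L : ZMod W) * γm i0), ?_⟩
    unfold cls
    linear_combination ((L : ZMod W) * γm i0) * hv
  set ω1 : ZMod W := ω0 + e0 with hω1
  set T : ℕ → Finset (ZMod m) := fun i => S.filter (cls W L γm n (ω1 + (i : ZMod W) * e0)) with hT
  have hTS : ∀ i, T i ⊆ S := fun i => filter_subset _ _
  -- the identity
  have hid : ∀ (R : Type) [AddCommGroup R] (c : ZMod (L * m) → R), OddDist c →
      ∑ i ∈ range p, ∑ a ∈ T i, x a • c (iota L a) =
        ∑ a ∈ T 0, x a • c ((p : ZMod (L * m)) * iota L a) := by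
    intro R _ c hc
    have h1 : ∀ i ∈ range p, ∑ a ∈ T i, x a • c (iota L a) =
        ∑ w, DS L (T 0) x n w • c (w + (i : ZMod (L * m)) * e1) := by
      intro i _
      rw [← DS_dist hc (T i) x n (fun a ha => hn0 a (hTS i ha)) (fun a ha => hnL a (hTS i ha)),
        ← Equiv.sum_comp (Equiv.addRight ((i : ZMod (L * m)) * e1))]
      refine sum_congr rfl fun w _ => ?_
      rw [Equiv.coe_addRight]
      congr 1
      simp only [hT]
      rw [hfilter, hfilter, hperi, map_add, map_mul, map_natCast]
      have h2 : (γ w + (i : ZMod W) * γ e1 = ω1 + (i : ZMod W) * e0) ↔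
          (γ w = ω1 + ((0 : ℕ) : ZMod W) * e0) := by
        rw [← he0]
        constructor
        · intro h; rw [Nat.cast_zero, zero_mul, add_zero]; exact add_right_cancel h
        · intro h; rw [Nat.cast_zero, zero_mul, add_zero] at h; rw [h]
      by_cases h3 : γ w = ω1 + ((0 : ℕ) : ZMod W) * e0
      · rw [if_pos h3, if_pos (h2.mpr h3)]
      · rw [if_neg h3, if_neg (fun h => h3 (h2.mp h))]
    rw [sum_congr rfl h1, sum_comm]
    have h2 : ∀ w : ZMod (L * m), ∑ i ∈ range p, DS L (T 0) x n w •
        c (w + (i : ZMod (L * m)) * e1) = DS L (T 0) x n w • c ((p : ZMod (L * m)) * w) := by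
      intro w
      rw [← smul_sum, hc.dist p (L * m / p) hp (Nat.mul_div_cancel' hpM) w]
    rw [sum_congr rfl fun w _ => h2 w]
    exact DS_dist_mul hc (T 0) x n (fun a ha => hn0 a (hTS 0 ha)) (fun a ha => hnL a (hTS 0 ha))
      (fun a ha => hncop a (hTS 0 ha))
  -- the new function
  set x' : ZMod m → ℤ := fun b => x b - (∑ i ∈ range p, if b ∈ T i then x b else 0) +
    ∑ a ∈ T 0, if (p : ZMod m) * a = b then x a else 0 with hx'
  have hsum : ∀ (R : Type) [AddCommGroup R] (g : ZMod m → R), ∑ b, x' b • g b =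
      ∑ b, x b • g b - ∑ i ∈ range p, ∑ a ∈ T i, x a • g a + ∑ a ∈ T 0, x a • g ((p : ZMod m) * a) := by
    intro R _ g
    rw [hx']
    simp only [add_smul, sub_smul, sum_add_distrib, sum_sub_distrib]
    congr 1
    · congr 1
      have h1 : ∀ b, (∑ i ∈ range p, if b ∈ T i then x b else 0) • g b =
          ∑ i ∈ range p, if b ∈ T i then x b • g b else 0 := by
        intro b
        rw [sum_smul]
        refine sum_congr rfl fun i _ => ?_
        split_ifs
        · rfl
        · rw [zero_smul]
      rw [sum_congr rfl fun b _ => h1 b, sum_comm]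
      refine sum_congr rfl fun i _ => ?_
      rw [← sum_filter]
      congr 1
      ext a; simp
    · have h1 : ∀ b, (∑ a ∈ T 0, if (p : ZMod m) * a = b then x a else 0) • g b =
          ∑ a ∈ T 0, if (p : ZMod m) * a = b then x a • g b else 0 := by
        intro b
        rw [sum_smul]
        refine sum_congr rfl fun i _ => ?_
        split_ifs
        · rfl
        · rw [zero_smul]
      rw [sum_congr rfl fun b _ => h1 b, sum_comm]
      refine sum_congr rfl fun a _ => ?_
      rw [Finset.sum_ite_eq]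
      simp
  have hid2 : ∀ (R : Type) [AddCommGroup R] (c : ZMod (L * m) → R), OddDist c →
      ∑ a, x a • c (iota L a) = ∑ a, x' a • c (iota L a) := by
    intro R _ c hc
    rw [hsum R (fun a => c (iota L a)), hid R c hc]
    have h1 : ∀ a : ZMod m, c (iota L ((p : ZMod m) * a)) = c ((p : ZMod (L * m)) * iota L a) := by
      intro a
      rw [iota_natMul rfl]
    simp only [h1]
    abel
  -- disjointness
  have hdisj : ∀ b i j, i < p → j < p → b ∈ T i → b ∈ T j → i = j := by
    have key : ∀ b i j, i < j → j < p → b ∈ T i → b ∈ T j → False := by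
      intro b i j hij hj hbi hbj
      simp only [hT, mem_filter] at hbi hbj
      have h1 : ω1 + (i : ZMod W) * e0 = ω1 + (j : ZMod W) * e0 :=
        (hunitn b hbi.1).mul_left_cancel (by
          have h2 := hbi.2
          have h3 := hbj.2
          unfold cls at h2 h3
          rw [h2, h3])
      have h2 : ((j - i : ℕ) : ZMod W) * e0 = 0 := by
        rw [Nat.cast_sub hij.le]
        linear_combination -h1
      have h3 : IsUnit (((j - i : ℕ) : ℤ) : ZMod W) := by
        apply unit_of_not_dvd hp
        intro h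
        have h4 : p ∣ j - i := by exact_mod_cast h
        have := Nat.le_of_dvd (by omega) h4
        omega
      rw [Int.cast_natCast] at h3
      exact he0ne ((h3.mul_right_eq_zero).mp h2)
    intro b i j hi hj hbi hbj
    rcases lt_trichotomy i j with h | h | h
    · exact (key b i j h hj hbi hbj).elim
    · exact h
    · exact (key b j i h hi hbj hbi).elim
  have habs : ∀ b, |x b - ∑ i ∈ range p, (if b ∈ T i then x b else 0)| +
      ∑ i ∈ range p, (if b ∈ T i then |x b| else 0) = |x b| := by
    intro b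
    by_cases hb : ∃ i, i < p ∧ b ∈ T i
    · obtain ⟨i, hi, hbi⟩ := hb
      have h1 : ∀ y : ℤ, ∑ j ∈ range p, (if b ∈ T j then y else 0) = y := by
        intro y
        rw [Finset.sum_eq_single i]
        · rw [if_pos hbi]
        · intro j hj hji
          rw [if_neg]
          intro hbj
          exact hji (hdisj b j i (mem_range.mp hj) hi hbj hbi)
        · intro h; exact absurd (mem_range.mpr hi) h
      rw [h1, h1, sub_self, abs_zero, zero_add]
    · have h1 : ∀ y : ℤ, ∑ j ∈ range p, (if b ∈ T j then y else 0) = 0 := by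
        intro y
        apply sum_eq_zero
        intro j hj
        rw [if_neg]
        intro hbj
        exact hb ⟨j, mem_range.mp hj, hbj⟩
      rw [h1, h1, sub_zero, add_zero]
  refine ⟨x', ?_, ?_, hid2⟩
  · -- relation
    intro t'
    obtain ⟨t, ht⟩ := ZMod.unitsMap_surjective (Dvd.intro_left L rfl : m ∣ L * m) t'
    have h1 := hid2 ℤ (fun a => saw ((t : ZMod (L * m)) * a)) (oddDist_saw t)
    have h2 : ∀ a : ZMod m, saw ((t : ZMod (L * m)) * iota L a) = L * saw ((t' : ZMod m) * a) := by
      intro a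
      rw [unit_iota rfl t a, saw_iota rfl]
      have h3 : ZMod.unitsMap (Dvd.intro_left L rfl : m ∣ L * m) t = t' := ht
      rw [h3]
    simp only [smul_eq_mul, h2] at h1
    have h3 : ∀ y : ZMod m → ℤ, ∑ a, y a * ((L : ℤ) * saw ((t' : ZMod m) * a)) =
        L * ∑ a, y a * saw ((t' : ZMod m) * a) := by
      intro y
      rw [mul_sum]
      exact sum_congr rfl fun a _ => by ring
    rw [h3, h3, hx t', mul_zero] at h1
    have hLz : (L : ℤ) ≠ 0 := by exact_mod_cast hL0
    exact (mul_eq_zero.mp h1.symm).resolve_left hLz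
  · -- weight
    have h1 : ∑ b, |x' b| ≤ ∑ b, |x b - ∑ i ∈ range p, (if b ∈ T i then x b else 0)| +
        ∑ a ∈ T 0, |x a| := by
      have h2 : ∀ b, |x' b| ≤ |x b - ∑ i ∈ range p, (if b ∈ T i then x b else 0)| +
          ∑ a ∈ T 0, if (p : ZMod m) * a = b then |x a| else 0 := by
        intro b
        rw [hx']
        refine (abs_add_le _ _).trans (add_le_add le_rfl ?_)
        refine (abs_sum_le_sum_abs _ _).trans (le_of_eq ?_)
        refine sum_congr rfl fun a _ => ?_
        split_ifs
        · rfl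
        · exact abs_zero
      refine (sum_le_sum fun b _ => h2 b).trans (le_of_eq ?_)
      rw [sum_add_distrib]
      congr 1
      rw [sum_comm]
      refine sum_congr rfl fun a _ => ?_
      rw [Finset.sum_ite_eq]
      simp
    have h3 : ∑ b, |x b| = ∑ b, |x b - ∑ i ∈ range p, (if b ∈ T i then x b else 0)| +
        ∑ i ∈ range p, ∑ a ∈ T i, |x a| := by
      rw [← sum_congr rfl fun b _ => habs b, sum_add_distrib]
      congr 1
      rw [sum_comm]
      refine sum_congr rfl fun i _ => ?_
      rw [← sum_filter]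
      congr 1
      ext a; simp
    have h4 : ∑ a ∈ T 0, |x a| < ∑ i ∈ range p, ∑ a ∈ T i, |x a| := by
      obtain ⟨p', hp'⟩ : ∃ p', p = p' + 1 := ⟨p - 1, by have := hp.pos; omega⟩
      have hp'1 : 1 ≤ p' := by have := hp.two_le; omega
      rw [hp', sum_range_succ']
      have h5 : 0 < ∑ i ∈ range p', ∑ a ∈ T (i + 1), |x a| := by
        have h6 : i0 ∈ T p' := by
          simp only [hT, mem_filter]
          refine ⟨hi0, ?_⟩
          have h7 : ω1 + (p' : ZMod W) * e0 = ω0 := by
            rw [hω1]
            have h8 : (p : ZMod W) = (p' : ZMod W) + 1 := by rw [hp']; push_cast; rfl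
            rw [h8] at hpe0
            linear_combination hpe0
          rw [h7]; exact hω0
        have h7 : |x i0| ≤ ∑ a ∈ T p', |x a| :=
          Finset.single_le_sum (f := fun b => |x b|) (fun b _ => abs_nonneg _) h6
        have h8 : ∑ a ∈ T (p' - 1 + 1), |x a| ≤ ∑ i ∈ range p', ∑ a ∈ T (i + 1), |x a| :=
          Finset.single_le_sum (f := fun i => ∑ a ∈ T (i + 1), |x a|)
            (fun i _ => sum_nonneg fun b _ => abs_nonneg _) (mem_range.mpr (by omega))
        rw [Nat.sub_add_cancel hp'1] at h8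
        have h9 : 0 < |x i0| := abs_pos.mpr hxi0
        omega
      omega
    omega

end Pool.Agent.N997
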