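import Pool.Agent.N997.Scale
import Pool.Agent.N997.Freq
import Pool.Agent.N997.Repl

/-!
A relation with few entries, one of which is prime to `p`, can be shortened when a large power of `p`
divides the level.
-/

namespace Pool.Agent.N997

open Finset Pool.Agent.H916R2

lemma loc_pow {p f : ℕ} (hp : p.Prime) (hf : 0 < f) : Loc (p ^ f) := by
  intro β hβ
  have hQ : NeZero (p ^ f) := ⟨pow_ne_zero _ hp.ne_zero⟩
  obtain ⟨f', rfl⟩ : ∃ f', f = f' + 1 := ⟨f - 1, by omega⟩
  refine ⟨((p ^ f' : ℕ) : ZMod (p ^ (f' + 1))), ?_, ?_⟩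
  · have h1 : p ∣ β.val := by
      by_contra hcon
      apply hβ
      have h2 : IsUnit ((β.val : ℤ) : ZMod (p ^ (f' + 1))) :=
        unit_of_not_dvd hp (by exact_mod_cast hcon)
      rw [Int.cast_natCast, ZMod.natCast_zmod_val] at h2
      exact h2
    obtain ⟨q, hq⟩ := h1
    have h2 : β = ((p * q : ℕ) : ZMod (p ^ (f' + 1))) := by
      rw [← hq, ZMod.natCast_zmod_val]
    rw [h2, ← Nat.cast_mul, ZMod.natCast_eq_zero_iff]
    exact ⟨q, by ring⟩
  · rw [Ne, ZMod.natCast_eq_zero_iff]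
    intro h
    have h1 := (Nat.pow_dvd_pow_iff_le_right hp.one_lt).mp h
    omega

lemma unit_one_add {m p f d : ℕ} [NeZero m] (hp : p.Prime) (h : d * p ^ f = m)
    (s : ZMod (p ^ f)) (hs : ¬ p ∣ 1 + d * s.val) : IsUnit (1 + iota d s : ZMod m) := by
  have h1 : (1 + iota d s : ZMod m) = ((1 + d * s.val : ℕ) : ZMod m) := by
    unfold iota; push_cast; rfl
  rw [h1, ZMod.isUnit_iff_coprime, ← h]
  apply Nat.Coprime.mul_right
  · simp
  · apply Nat.Coprime.pow_right
    exact (hp.coprime_iff_not_dvd.mpr hs).symm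

lemma exists_exception {m p f d : ℕ} [NeZero m] (hp : p.Prime) (h : d * p ^ f = m)
    (hcase : f = 1 ∨ p ∣ d) :
    ∃ s0 : ZMod (p ^ f), ∀ s, s ≠ s0 → IsUnit (1 + iota d s : ZMod m) := by
  have hQ : NeZero (p ^ f) := ⟨pow_ne_zero _ hp.ne_zero⟩
  by_cases hex : ∃ s : ZMod (p ^ f), p ∣ 1 + d * s.val
  · obtain ⟨s0, hs0⟩ := hex
    refine ⟨s0, fun s hs => unit_one_add hp h s ?_⟩
    intro hd
    have hpd : ¬ p ∣ d := by
      intro h1
      have h2 : p ∣ 1 := (Nat.dvd_add_left (h1.mul_right s0.val)).mp hs0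
      exact hp.one_lt.ne' (Nat.dvd_one.mp h2)
    have hf : f = 1 := hcase.resolve_right hpd
    apply hs
    apply ZMod.val_injective
    have hpf : p ^ f = p := by rw [hf, pow_one]
    have hlt : s.val < p := (ZMod.val_lt s).trans_eq hpf
    have hlt0 : s0.val < p := (ZMod.val_lt s0).trans_eq hpf
    have h3 : (p : ℤ) ∣ (d : ℤ) * ((s.val : ℤ) - s0.val) := by
      have h4 : (p : ℤ) ∣ ((1 + d * s.val : ℕ) : ℤ) - ((1 + d * s0.val : ℕ) : ℤ) :=
        dvd_sub (by exact_mod_cast hd) (by exact_mod_cast hs0)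
      have h5 : ((1 + d * s.val : ℕ) : ℤ) - ((1 + d * s0.val : ℕ) : ℤ) =
          (d : ℤ) * ((s.val : ℤ) - s0.val) := by push_cast; ring
      rwa [h5] at h4
    have h4 : (p : ℤ) ∣ (s.val : ℤ) - s0.val := by
      rcases (Nat.prime_iff_prime_int.mp hp).dvd_or_dvd h3 with h5 | h5
      · exact absurd (by exact_mod_cast h5) hpd
      · exact h5
    obtain ⟨q, hq⟩ := h4
    have hp0 : (0 : ℤ) < p := by exact_mod_cast hp.pos
    have hq0 : q = 0 := by
      have h6 : (s.val : ℤ) < p := by exact_mod_cast hlt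
      have h7 : (s0.val : ℤ) < p := by exact_mod_cast hlt0
      have h8 : (0 : ℤ) ≤ s.val := Int.natCast_nonneg _
      have h9 : (0 : ℤ) ≤ s0.val := Int.natCast_nonneg _
      by_contra hne
      rcases lt_or_gt_of_ne hne with h10 | h10
      · have : (p : ℤ) * q ≤ p * (-1) := mul_le_mul_of_nonneg_left (by omega) hp0.le
        omega
      · have : (p : ℤ) * 1 ≤ p * q := mul_le_mul_of_nonneg_left (by omega) hp0.le
        omega
    rw [hq0, mul_zero] at hq
    omega
  · push Not at hex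
    exact ⟨0, fun s _ => unit_one_add hp h s (hex s)⟩

theorem core {m p f : ℕ} [NeZero m] (hp : p.Prime) (hf : 0 < f) (hfm : p ^ f ∣ m)
    (hcase : f = 1 ∨ p ^ (f + 1) ∣ m) (k : ℕ) (hB : bound k < p ^ f) (x : ZMod m → ℤ)
    (hx : Rel x) (hk : ∑ a, |x a| ≤ k) (i0 : ZMod m) (hi0 : x i0 ≠ 0) (hi0p : ¬ p ∣ i0.val) :
    ∃ x' : ZMod m → ℤ, Rel x' ∧ ∑ a, |x' a| < ∑ a, |x a| ∧ ∃ L : ℕ, 0 < L ∧
      ∀ (M : ℕ) [NeZero M], L * m = M → ∀ (R : Type) [AddCommGroup R] (c : ZMod M → R),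
        OddDist c → ∑ a, x a • c (iota L a) = ∑ a, x' a • c (iota L a) := by
  classical
  have hk0 : 0 < k := by
    rcases Nat.eq_zero_or_pos k with h | h
    · exfalso
      have h1 : |x i0| ≤ ∑ a, |x a| :=
        Finset.single_le_sum (f := fun b => |x b|) (fun b _ => abs_nonneg _) (mem_univ i0)
      have h2 : 0 < |x i0| := abs_pos.mpr hi0
      rw [h] at hk
      push_cast at hk
      omega
    · exact h
  obtain ⟨d, hd⟩ := hfm
  have h : d * p ^ f = m := by rw [hd]; ring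
  set Q := p ^ f with hQdef
  have hQ : NeZero Q := ⟨pow_ne_zero _ hp.ne_zero⟩
  have hpm : p ∣ m := by
    rw [← h]
    exact (dvd_pow_self p (by omega)).mul_left d
  have hcase' : f = 1 ∨ p ∣ d := by
    rcases hcase with h1 | h1
    · exact Or.inl h1
    · right
      rw [← h, pow_succ, mul_comm (p ^ f) p] at h1
      exact Nat.dvd_of_mul_dvd_mul_right (pow_pos hp.pos f) h1
  have hloc : Loc Q := loc_pow hp hf
  have hunit : ∃ s0 : ZMod Q, ∀ s, s ≠ s0 → IsUnit (1 + iota d s : ZMod m) :=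
    exists_exception hp h hcase'
  have hpu : ∀ z : ℤ, ¬ (p : ℤ) ∣ z → IsUnit (z : ZMod Q) := fun z hz => unit_of_not_dvd hp hz
  have hpn : ∀ z : ℤ, (p : ℤ) ∣ z → ¬ IsUnit (z : ZMod Q) := by
    intro z hz hu
    rw [ZMod.coe_int_isUnit_iff_isCoprime] at hu
    have h1 : (p : ℤ) ∣ (Q : ℤ) := by
      rw [hQdef]; push_cast
      exact dvd_pow_self _ (by omega)
    have h2 := hu.isUnit_of_dvd' h1 hz
    rw [Int.isUnit_iff] at h2
    have := hp.two_le
    omega
  have hQ1 : 1 < Q := by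
    have : 0 < f := hf
    exact Nat.one_lt_pow (by omega) hp.one_lt
  have hi0u : IsUnit (bt h i0) := by
    have h1 : bt h i0 = ((i0.val : ℤ) : ZMod Q) := by
      unfold bt
      rw [ZMod.castHom_apply, Int.cast_natCast, ZMod.natCast_val]
    rw [h1]
    exact hpu _ (by exact_mod_cast hi0p)
  obtain ⟨J, S, n, β0, hJ1, hJs, hScard, hi0S, hβ0, hS, hout⟩ :=
    select hp hk0 h hpu hpn x hk i0 hi0 hi0u
  -- numerical facts
  set P := J ^ k with hP
  have hP1 : 1 ≤ P := Nat.one_le_pow _ _ hJ1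
  have hJP : J ^ (2 * k) = P * P := by rw [hP, two_mul, pow_add]
  rw [hJP] at hJs
  set s := scale k k with hs
  have hsQ : 15 * s < Q := hB
  have hs1 : 8 * (k * k) * (P * P) ≤ s := by
    have : 8 * k ^ 2 * (P * P) = 8 * (k * k) * (P * P) := by ring
    rw [← this]; exact hJs
  have hkk : k ≤ k * k := Nat.le_mul_self k
  have hPP : P ≤ P * P := Nat.le_mul_self P
  have hkP : 2 * (k * P) ≤ s := by
    have h1 : k * P ≤ (k * k) * (P * P) := Nat.mul_le_mul hkk hPP
    have h2 : 8 * ((k * k) * (P * P)) ≤ s := by rw [← mul_assoc]; exact hs1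
    omega
  have n1 : P * (4 * k * (2 * k * P)) + 2 * k * P < Q := by
    have h1 : P * (4 * k * (2 * k * P)) = 8 * (k * k) * (P * P) := by ring
    have h2 : 2 * k * P = 2 * (k * P) := by ring
    rw [h1, h2]
    omega
  have n2 : 2 * (2 * k * P) < Q := by
    have h2 : 2 * k * P = 2 * (k * P) := by ring
    rw [h2]
    omega
  have n3 : 58 * k * (2 * k * P) ≤ Q := by
    have h1 : 58 * k * (2 * k * P) = 116 * ((k * k) * P) := by ring
    have h2 : (k * k) * P ≤ (k * k) * (P * P) := Nat.mul_le_mul_left _ hPP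
    have h3 : 8 * ((k * k) * (P * P)) ≤ s := by rw [← mul_assoc]; exact hs1
    rw [h1]
    omega
  -- the level
  set L : ℕ := ∏ a ∈ S, (n a).natAbs with hL
  have hpL : ¬ p ∣ L := by
    rw [hL]
    intro hdvd
    rw [hp.prime.dvd_finsetProd_iff] at hdvd
    obtain ⟨a, ha, hda⟩ := hdvd
    exact (hS a ha).1 (Int.natCast_dvd.mpr hda)
  have hL0 : L ≠ 0 := by intro h0; rw [h0] at hpL; exact hpL (dvd_zero p)
  have hnL : ∀ a ∈ S, n a ∣ (L : ℤ) := by
    intro a ha
    rw [← Int.natAbs_dvd_natAbs, Int.natAbs_natCast, hL]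
    exact dvd_prod_of_mem (fun a => (n a).natAbs) ha
  have hLm : NeZero (L * m) := ⟨Nat.mul_ne_zero hL0 (NeZero.ne m)⟩
  have hn0 : ∀ a ∈ S, n a ≠ 0 := fun a ha h0 => (hS a ha).1 (h0 ▸ dvd_zero _)
  obtain ⟨e, u, hu, hme⟩ := Nat.exists_eq_pow_mul_and_not_dvd (NeZero.ne m) p hp.one_lt.ne'
  have he : 0 < e := by
    rcases Nat.eq_zero_or_pos e with h0 | h0
    · rw [h0, pow_zero, one_mul] at hme
      rw [hme] at hpm
      exact absurd hpm hu
    · exact h0
  have hper : ∀ w, DS L S x n (w + ((L * m / p : ℕ) : ZMod (L * m))) = DS L S x n w := by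
    intro w
    apply periodic (DS L S x n) (hpm.mul_left L) (2 * k * P)
    · have h1 := card_DS (L := L) S x n hn0 hnL P (fun a ha => (hS a ha).2.1)
      have h2 : S.card * P ≤ k * P := Nat.mul_le_mul_right _ hScard
      have h3 : 2 * k * P = 2 * (k * P) := by ring
      rw [h3]
      omega
    · intro j hj1 hjU hpj
      rw [FC_DS S x n hn0 hnL j]
      exact freq h x hx k hk hloc hunit hQ1 hpu S n β0 hβ0 (2 * k * P) P (4 * k * (2 * k * P)) hS
        hout n1 n2 n3 le_rfl j hj1 hjU hpj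
  obtain ⟨x', hx', hw, hid⟩ := replace hp hme.symm he hu hpL S x n (fun a ha => (hS a ha).1) hnL
    hper hx i0 hi0S hi0
  refine ⟨x', hx', hw, L, Nat.pos_of_ne_zero hL0, ?_⟩
  intro M _ hM
  subst hM
  exact hid

end Pool.Agent.N997
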