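import Pool.Agent.H916R2.Defs

/-!
# The universal degree of a given number of entries
-/

namespace Pool.Agent.N997

open Pool.Agent.H916R2

/-- The scales: `1` for `l = 0`, and `8 k² J ^ (2 k)` after `J`. -/
def scale (k : ℕ) : ℕ → ℕ
  | 0 => 1
  | l + 1 => 8 * k ^ 2 * scale k l ^ (2 * k)

/-- The bound: prime powers above it can be removed from the degree. -/
def bound (k : ℕ) : ℕ := 15 * scale k k

/-- The universal degree: the product, over the primes `p ≤ bound k`, of the least power of `p` which
exceeds `bound k`. -/
def univDegree (k : ℕ) : ℕ :=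
  ∏ p ∈ (Finset.range (bound k + 1)).filter Nat.Prime, p ^ (Nat.log p (bound k) + 1)

/-- The characters of degree `M` which come from the Hodge characters of degree `g` with exactly
`2 r` entries, by multiplication by `M / g`, i.e. from the Fermat variety of degree `g` and dimension
`2 r - 2`. -/
def FromFermat (M g r : ℕ) (s : Multiset (ZMod M)) : Prop :=
  ∃ s0 : Multiset (ZMod g), IsHodge g s0 ∧ Multiset.card s0 = 2 * r ∧
    s = s0.map fun b => (((M / g) * b.val : ℕ) : ZMod M)

end Pool.Agent.N997
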