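import Pool.Agent.H916R2.Relations
import Pool.Agent.N997.Norm

/-!
The discrete Fourier transform of the sawtooth along a subgroup of translations.
-/

namespace Pool.Agent.N997

open Finset Pool.Agent.H916R2

variable {m d Q : ℕ} [NeZero m] [NeZero Q]

/-- the leading digit -/
def dig (d Q : ℕ) {m : ℕ} (b : ZMod m) : ZMod Q := ((b.val / d : ℕ) : ZMod Q)

lemma dig_add (h : d * Q = m) (b : ZMod m) (s : ZMod Q) :
    dig d Q (b + iota d s) = dig d Q b + s := by
  have hd : 0 < d := Nat.pos_of_ne_zero (by rintro rfl; simp at h; exact NeZero.ne m h.symm)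
  unfold dig iota
  have h1 : (b + ((d * s.val : ℕ) : ZMod m)).val = (b.val + d * s.val) % (d * Q) := by
    rw [h]
    have : b + ((d * s.val : ℕ) : ZMod m) = ((b.val + d * s.val : ℕ) : ZMod m) := by
      rw [Nat.cast_add, ZMod.natCast_zmod_val]
    rw [this, ZMod.val_natCast]
  rw [h1, Nat.mod_mul_right_div_self, ZMod.natCast_mod, Nat.add_mul_div_left _ _ hd, Nat.cast_add,
    ZMod.natCast_zmod_val]

lemma val_add_d (h : d * Q = m) (c : ZMod m) :
    (((c + ((d : ℕ) : ZMod m)).val : ℕ) : ℂ) =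
      (c.val : ℂ) + d - (if dig d Q c = -1 then (m : ℂ) else 0) := by
  have hm : 0 < m := NeZero.pos m
  have hQ : 0 < Q := NeZero.pos Q
  have hd : 0 < d := Nat.pos_of_ne_zero (by rintro rfl; simp at h; exact NeZero.ne m h.symm)
  have hc := ZMod.val_lt c
  have hdm : d ≤ m := by rw [← h]; exact Nat.le_mul_of_pos_right d hQ
  have h1 : (c + ((d : ℕ) : ZMod m)).val = (c.val + d) % m := by
    have : c + ((d : ℕ) : ZMod m) = ((c.val + d : ℕ) : ZMod m) := by
      rw [Nat.cast_add, ZMod.natCast_zmod_val]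
    rw [this, ZMod.val_natCast]
  have hdiv : c.val / d < Q := by
    rw [Nat.div_lt_iff_lt_mul hd, mul_comm, h]; exact hc
  have h2 : dig d Q c = -1 ↔ m ≤ c.val + d := by
    unfold dig
    rw [eq_neg_iff_add_eq_zero]
    have : ((c.val / d : ℕ) : ZMod Q) + 1 = ((c.val / d + 1 : ℕ) : ZMod Q) := by push_cast; rfl
    rw [this, ZMod.natCast_eq_zero_iff]
    have h3 : m ≤ c.val + d ↔ Q ≤ c.val / d + 1 := by
      have h4 : c.val / d + 1 = (c.val + d) / d := by rw [Nat.add_div_right _ hd]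
      rw [h4, Nat.le_div_iff_mul_le hd, mul_comm, h]
    rw [h3]
    constructor
    · intro h5
      exact Nat.le_of_dvd (Nat.succ_pos _) h5
    · intro h5
      have : c.val / d + 1 = Q := by omega
      rw [this]
  rw [h1]
  by_cases h3 : m ≤ c.val + d
  · rw [if_pos (h2.mpr h3), Nat.mod_eq_sub_mod h3, Nat.mod_eq_of_lt (by omega), Nat.cast_sub h3]
    push_cast; ring
  · rw [if_neg (fun h4 => h3 (h2.mp h4)), Nat.mod_eq_of_lt (by omega)]
    push_cast; ring

lemma sum_char_zero {g : ZMod Q} (hg : g ≠ 0) :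
    ∑ s : ZMod Q, (ZMod.stdAddChar (-(g * s)) : ℂ) = 0 := by
  classical
  have h := AddChar.sum_mulShift (R := ZMod Q) (R' := ℂ) (ψ := ZMod.stdAddChar) (-g)
    (ZMod.isPrimitive_stdAddChar Q)
  rw [if_neg (neg_ne_zero.mpr hg), Nat.cast_zero] at h
  rw [← h]
  refine sum_congr rfl fun s _ => ?_
  congr 1; ring

/-- the transform of the representative -/
noncomputable def VV (d : ℕ) {m Q : ℕ} [NeZero Q] (b : ZMod m) (g : ZMod Q) : ℂ :=
  ∑ s : ZMod Q, ((b + iota d s : ZMod m).val : ℂ) * ZMod.stdAddChar (-(g * s))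

omit [NeZero m] [NeZero Q] in
lemma iota_one (hQ1 : 1 < Q) : (iota d (1 : ZMod Q) : ZMod m) = (d : ZMod m) := by
  have : Fact (1 < Q) := ⟨hQ1⟩
  unfold iota
  rw [ZMod.val_one, mul_one]

theorem VV_formula (h : d * Q = m) (b : ZMod m) {g : ZMod Q} (hg : g ≠ 0) :
    (1 - ZMod.stdAddChar g) * VV d b g = m * ZMod.stdAddChar (g * (dig d Q b + 1)) := by
  classical
  have hQ1 : 1 < Q := by
    have h0 : 0 < Q := NeZero.pos Q
    by_contra hcon
    have : Q = 1 := by omega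
    subst this
    exact hg (Subsingleton.elim _ _)
  have h1 : VV d b g = ∑ s : ZMod Q, ((b + iota d (s + 1) : ZMod m).val : ℂ) *
      ZMod.stdAddChar (-(g * (s + 1))) := by
    unfold VV
    exact (Equiv.sum_comp (Equiv.addRight (1 : ZMod Q))
      (fun s => ((b + iota d s : ZMod m).val : ℂ) * ZMod.stdAddChar (-(g * s)))).symm
  have h2 : ZMod.stdAddChar g * VV d b g = ∑ s : ZMod Q, (((b + iota d s : ZMod m).val : ℂ) + d -
      (if dig d Q (b + iota d s : ZMod m) = -1 then (m : ℂ) else 0)) *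
      ZMod.stdAddChar (-(g * s)) := by
    rw [h1, mul_sum]
    refine sum_congr rfl fun s _ => ?_
    have e1 : (b + iota d (s + 1) : ZMod m) = (b + iota d s) + (d : ZMod m) := by
      rw [iota_add h, iota_one hQ1]; ring
    rw [e1, val_add_d h]
    have e2 : (ZMod.stdAddChar (-(g * s)) : ℂ) =
        ZMod.stdAddChar g * ZMod.stdAddChar (-(g * (s + 1))) := by
      rw [← AddChar.map_add_eq_mul]; congr 1; ring
    rw [e2]; ring
  have h3 : ∑ s : ZMod Q, (((b + iota d s : ZMod m).val : ℂ) + d -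
      (if dig d Q (b + iota d s : ZMod m) = -1 then (m : ℂ) else 0)) *
      ZMod.stdAddChar (-(g * s)) = VV d b g + d * ∑ s : ZMod Q, (ZMod.stdAddChar (-(g * s)) : ℂ) -
      ∑ s : ZMod Q, (if dig d Q (b + iota d s : ZMod m) = -1 then (m : ℂ) else 0) *
        ZMod.stdAddChar (-(g * s)) := by
    unfold VV
    rw [mul_sum, ← sum_add_distrib, ← sum_sub_distrib]
    refine sum_congr rfl fun s _ => ?_
    ring
  have h4 : ∑ s : ZMod Q, (if dig d Q (b + iota d s : ZMod m) = -1 then (m : ℂ) else 0) *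
        ZMod.stdAddChar (-(g * s)) = m * ZMod.stdAddChar (g * (dig d Q b + 1)) := by
    rw [Finset.sum_eq_single (-1 - dig d Q b)]
    · rw [dig_add h, if_pos (by ring)]
      congr 2; ring
    · intro s _ hs
      rw [dig_add h, if_neg, zero_mul]
      intro h5
      apply hs
      rw [← h5]; ring
    · intro h5; exact absurd (mem_univ _) h5
  rw [h3, sum_char_zero hg, h4, mul_zero, add_zero] at h2
  linear_combination -h2

lemma iota_mul (h : d * Q = m) (s : ZMod Q) (b : ZMod m) :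
    (iota d s : ZMod m) * b = iota d (s * ZMod.castHom (Dvd.intro_left d h : Q ∣ m) (ZMod Q) b) := by
  have h1 : ZMod.castHom (Dvd.intro_left d h : Q ∣ m) (ZMod Q) b = ((b.val : ℕ) : ZMod Q) := by
    rw [ZMod.castHom_apply, ZMod.natCast_val]
  rw [h1, mul_comm s, iota_natMul h, ZMod.natCast_zmod_val, mul_comm]

lemma one_sub_ne {g : ZMod Q} (hg : g ≠ 0) : (1 : ℂ) - ZMod.stdAddChar g ≠ 0 := by
  rw [sub_ne_zero]
  intro h
  apply hg
  apply ZMod.injective_stdAddChar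
  rw [← h, AddChar.map_zero_eq_one]

/-- the value of the transform of one entry, divided by `m` -/
noncomputable def TT' (d : ℕ) {m Q : ℕ} [NeZero Q] (b : ZMod m) (g : ZMod Q) : ℂ :=
  ZMod.stdAddChar (g * (dig d Q b + 1)) / (1 - ZMod.stdAddChar g)

lemma VV_eq (h : d * Q = m) (b : ZMod m) {g : ZMod Q} (hg : g ≠ 0) :
    VV d b g = m * TT' d b g := by
  unfold TT'
  rw [mul_div_assoc', eq_div_iff (one_sub_ne hg), ← VV_formula h b hg]
  ring

/-- the transform of one entry of a relation -/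
lemma entry (h : d * Q = m) (b : ZMod m) {w : ZMod Q} (hw : w ≠ 0) :
    ∑ s : ZMod Q, ((2 * (b + iota d s * b : ZMod m).val : ℂ) - m) * ZMod.stdAddChar (-(w * s)) =
      2 * ∑ s : ZMod Q, ((b + iota d (s * ZMod.castHom (Dvd.intro_left d h : Q ∣ m) (ZMod Q) b) :
        ZMod m).val : ℂ) * ZMod.stdAddChar (-(w * s)) := by
  have h1 := sum_char_zero hw
  have h2 : ∑ s : ZMod Q, ((2 * (b + iota d s * b : ZMod m).val : ℂ) - m) *
      ZMod.stdAddChar (-(w * s)) = 2 * ∑ s : ZMod Q, ((b + iota d (s *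
        ZMod.castHom (Dvd.intro_left d h : Q ∣ m) (ZMod Q) b) :
        ZMod m).val : ℂ) * ZMod.stdAddChar (-(w * s)) -
        m * ∑ s : ZMod Q, (ZMod.stdAddChar (-(w * s)) : ℂ) := by
    rw [mul_sum, mul_sum, ← sum_sub_distrib]
    refine sum_congr rfl fun s _ => ?_
    rw [iota_mul h]
    ring
  rw [h2, h1, mul_zero, sub_zero]

lemma entry_unit (h : d * Q = m) (b : ZMod m) {w : ZMod Q} (hw : w ≠ 0)
    (hb : IsUnit (ZMod.castHom (Dvd.intro_left d h : Q ∣ m) (ZMod Q) b)) :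
    ∑ s : ZMod Q, ((2 * (b + iota d s * b : ZMod m).val : ℂ) - m) * ZMod.stdAddChar (-(w * s)) =
      2 * m * TT' d b (w * (ZMod.castHom (Dvd.intro_left d h : Q ∣ m) (ZMod Q) b)⁻¹) := by
  rw [entry h b hw]
  set β := ZMod.castHom (Dvd.intro_left d h : Q ∣ m) (ZMod Q) b with hβ
  obtain ⟨u, hu⟩ := hb
  have hu1 : β⁻¹ = ((u⁻¹ : (ZMod Q)ˣ) : ZMod Q) := by
    have h1 : β * β⁻¹ = 1 := ZMod.mul_inv_of_unit β ⟨u, hu⟩
    rw [← hu] at h1 ⊢
    calc ((u : ZMod Q))⁻¹ = ((u⁻¹ : (ZMod Q)ˣ) : ZMod Q) * ((u : ZMod Q) * (u : ZMod Q)⁻¹) := by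
          rw [← mul_assoc]; simp
      _ = _ := by rw [h1, mul_one]
  have hg : w * β⁻¹ ≠ 0 := by
    rw [hu1]
    intro h0
    exact hw ((Units.mul_left_eq_zero u⁻¹).mp h0)
  rw [mul_assoc, ← VV_eq h b hg]
  congr 1
  unfold VV
  have := Equiv.sum_comp (Units.mulRight u).symm (fun s => ((b + iota d (s * β) : ZMod m).val : ℂ) *
    ZMod.stdAddChar (-(w * s)))
  rw [← this]
  refine sum_congr rfl fun s _ => ?_
  have e1 : ((Units.mulRight u).symm s) = s * ((u⁻¹ : (ZMod Q)ˣ) : ZMod Q) := rfl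
  have e2 : s * ((u⁻¹ : (ZMod Q)ˣ) : ZMod Q) * β = s := by
    rw [← hu, mul_assoc]; simp
  rw [e1, e2, hu1]
  congr 2; ring

lemma entry_nonunit (h : d * Q = m) (b : ZMod m) {w : ZMod Q} (hw : w ≠ 0) (s1 : ZMod Q)
    (h1 : s1 * ZMod.castHom (Dvd.intro_left d h : Q ∣ m) (ZMod Q) b = 0) (h2 : w * s1 ≠ 0) :
    ∑ s : ZMod Q, ((2 * (b + iota d s * b : ZMod m).val : ℂ) - m) * ZMod.stdAddChar (-(w * s)) =
      0 := by
  rw [entry h b hw]
  set β := ZMod.castHom (Dvd.intro_left d h : Q ∣ m) (ZMod Q) b with hβ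
  have h3 := Equiv.sum_comp (Equiv.addRight s1) (fun s => ((b + iota d (s * β) : ZMod m).val : ℂ) *
    ZMod.stdAddChar (-(w * s)))
  have h4 : ∑ s : ZMod Q, ((b + iota d (((Equiv.addRight s1) s) * β) : ZMod m).val : ℂ) *
    ZMod.stdAddChar (-(w * ((Equiv.addRight s1) s))) = ZMod.stdAddChar (-(w * s1)) *
    ∑ s : ZMod Q, ((b + iota d (s * β) : ZMod m).val : ℂ) * ZMod.stdAddChar (-(w * s)) := by
    rw [mul_sum]
    refine sum_congr rfl fun s _ => ?_
    rw [Equiv.coe_addRight, add_mul, h1, add_zero]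
    have e2 : (ZMod.stdAddChar (-(w * (s + s1))) : ℂ) =
        ZMod.stdAddChar (-(w * s1)) * ZMod.stdAddChar (-(w * s)) := by
      rw [← AddChar.map_add_eq_mul]; congr 1; ring
    rw [e2]; ring
  rw [h4] at h3
  have h5 : (1 : ℂ) - ZMod.stdAddChar (-(w * s1)) ≠ 0 := one_sub_ne (neg_ne_zero.mpr h2)
  have h6 : ((1 : ℂ) - ZMod.stdAddChar (-(w * s1))) *
    ∑ s : ZMod Q, ((b + iota d (s * β) : ZMod m).val : ℂ) * ZMod.stdAddChar (-(w * s)) = 0 := by
    linear_combination -h3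
  rw [(mul_eq_zero.mp h6).resolve_left h5, mul_zero]

end Pool.Agent.N997
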