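import Pool.Agent.N997.Vand

/-!
Signed division points: expansions of an odd distribution and Fourier coefficients.
-/

namespace Pool.Agent.N997

open Finset Pool.Agent.H916R2

section

variable {M : ℕ} [NeZero M]

lemma fib_neg (n : ℤ) (u : ZMod M) : fib M (-n) (-u) = fib M n u := by
  ext w
  rw [mem_fib, mem_fib]
  push_cast
  rw [neg_mul, neg_inj]

lemma dist_int {R : Type*} [AddCommGroup R] {c : ZMod M → R} (hc : OddDist c) {n : ℤ} (hn : n ≠ 0)
    (hnM : n ∣ (M : ℤ)) (w0 : ZMod M) :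
    ∑ w ∈ fib M n ((n : ZMod M) * w0), c w = n.sign • c ((n : ZMod M) * w0) := by
  obtain ⟨k, rfl | rfl⟩ := n.eq_nat_or_neg
  · have hk : 0 < k := Nat.pos_of_ne_zero (by rintro rfl; exact hn rfl)
    have h1 : k ∣ M := by exact_mod_cast hnM
    have h2 := dist_all hc k h1 w0
    have h3 : ((k : ℕ) : ℤ).sign = 1 := Int.sign_eq_one_of_pos (by exact_mod_cast hk)
    rw [h3, one_smul, Int.cast_natCast]
    exact h2
  · have hk : 0 < k := Nat.pos_of_ne_zero (by rintro rfl; exact hn (by simp))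
    have h1 : k ∣ M := by
      rw [neg_dvd] at hnM
      exact_mod_cast hnM
    have h2 := dist_all hc k h1 w0
    have h3 : (-((k : ℕ) : ℤ)).sign = -1 := Int.sign_eq_neg_one_of_neg (by
      have : (0 : ℤ) < k := by exact_mod_cast hk
      omega)
    have h4 : ((-(k : ℤ) : ℤ) : ZMod M) * w0 = -((k : ZMod M) * w0) := by push_cast; ring
    rw [h3, h4, fib_neg, hc.neg, neg_smul, one_smul, neg_neg]
    exact h2

lemma char_fib_int {n : ℤ} (hn : n ≠ 0) (hnM : n ∣ (M : ℤ)) (w0 : ZMod M) (j : ℕ) :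
    ∑ w ∈ fib M n ((n : ZMod M) * w0), (ZMod.stdAddChar ((j : ZMod M) * w) : ℂ) =
      if n ∣ (j : ℤ) then ((n.sign * n : ℤ) : ℂ) *
        ZMod.stdAddChar ((((j : ℤ) / n : ℤ) : ZMod M) * ((n : ZMod M) * w0))
      else 0 := by
  obtain ⟨k, rfl | rfl⟩ := n.eq_nat_or_neg
  · have hk : 0 < k := Nat.pos_of_ne_zero (by rintro rfl; exact hn rfl)
    have h1 : k ∣ M := by exact_mod_cast hnM
    have h2 := char_fib h1 w0 j
    have h3 : ((k : ℕ) : ℤ).sign = 1 := Int.sign_eq_one_of_pos (by exact_mod_cast hk)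
    have h4 : ((k : ℤ) ∣ (j : ℤ)) ↔ k ∣ j := by exact_mod_cast Iff.rfl
    rw [h3, Int.cast_natCast, h2]
    by_cases h5 : k ∣ j
    · rw [if_pos h5, if_pos (h4.mpr h5)]
      obtain ⟨j', rfl⟩ := h5
      rw [Nat.mul_div_cancel_left _ hk]
      have h6 : (((k * j' : ℕ) : ℤ) / (k : ℤ)) = (j' : ℤ) := by
        rw [Nat.cast_mul, Int.mul_ediv_cancel_left _ (by exact_mod_cast hk.ne')]
      rw [h6]
      push_cast
      ring
    · rw [if_neg h5, if_neg (fun h => h5 (h4.mp h))]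
  · have hk : 0 < k := Nat.pos_of_ne_zero (by rintro rfl; exact hn (by simp))
    have h1 : k ∣ M := by
      rw [neg_dvd] at hnM
      exact_mod_cast hnM
    have h2 := char_fib h1 w0 j
    have h3 : (-((k : ℕ) : ℤ)).sign = -1 := Int.sign_eq_neg_one_of_neg (by
      have : (0 : ℤ) < k := by exact_mod_cast hk
      omega)
    have h4 : ((-(k : ℤ)) ∣ (j : ℤ)) ↔ k ∣ j := by
      rw [neg_dvd]; exact_mod_cast Iff.rfl
    have h5 : ((-(k : ℤ) : ℤ) : ZMod M) * w0 = -((k : ZMod M) * w0) := by push_cast; ring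
    rw [h3, h5, fib_neg, h2]
    by_cases h6 : k ∣ j
    · rw [if_pos h6, if_pos (h4.mpr h6), Int.ediv_neg]
      obtain ⟨j', rfl⟩ := h6
      rw [Nat.mul_div_cancel_left _ hk]
      have h8 : (((k * j' : ℕ) : ℤ) / (k : ℤ)) = (j' : ℤ) := by
        rw [Nat.cast_mul, Int.mul_ediv_cancel_left _ (by exact_mod_cast hk.ne')]
      rw [h8]
      have h7 : (((-(j' : ℤ)) : ℤ) : ZMod M) * (-((k : ZMod M) * w0)) =
          (j' : ZMod M) * ((k : ZMod M) * w0) := by push_cast; ring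
      rw [h7]
      push_cast
      ring
    · rw [if_neg h6, if_neg (fun h => h6 (h4.mp h))]

end

section

variable {m L : ℕ} [NeZero m] [NeZero (L * m)]

lemma iota_intMul {k m0 m : ℕ} [NeZero m0] (h : k * m0 = m) (n : ℤ) (a : ZMod m0) :
    (iota k ((n : ZMod m0) * a) : ZMod m) = (n : ZMod m) * iota k a := by
  obtain ⟨l, rfl | rfl⟩ := n.eq_nat_or_neg
  · push_cast; exact iota_natMul h l a
  · push_cast
    rw [neg_mul, iota_neg h, iota_natMul h, neg_mul]

lemma stdAddChar_iota {k m0 m : ℕ} [NeZero m0] [NeZero m] (h : k * m0 = m) (a : ZMod m0) :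
    (ZMod.stdAddChar (iota k a : ZMod m) : ℂ) = ZMod.stdAddChar a := by
  have hk : (k : ℂ) ≠ 0 := by
    have : k ≠ 0 := by rintro rfl; simp at h; exact NeZero.ne m h.symm
    exact_mod_cast this
  have hm : (m : ℂ) = k * m0 := by rw [← h]; push_cast; rfl
  have h1 : (iota k a : ZMod m) = (((k * a.val : ℕ) : ℤ) : ZMod m) := by
    unfold iota; push_cast; rfl
  have h2 : a = ((a.val : ℤ) : ZMod m0) := by
    rw [Int.cast_natCast, ZMod.natCast_zmod_val]
  rw [h1, ZMod.stdAddChar_coe]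
  conv_rhs => rw [h2, ZMod.stdAddChar_coe]
  congr 1
  rw [hm]
  push_cast
  have hm0 : (m0 : ℂ) ≠ 0 := by exact_mod_cast NeZero.ne m0
  field_simp

/-- the signed counting function of the division points -/
def DS (L : ℕ) {m : ℕ} (S : Finset (ZMod m)) (x n : ZMod m → ℤ) (w : ZMod (L * m)) : ℤ :=
  ∑ a ∈ S, if (n a : ZMod (L * m)) * w = iota L a then x a * (n a).sign else 0

lemma exists_div {n : ℤ} (hnL : n ∣ (L : ℤ)) (a : ZMod m) :
    ∃ w0 : ZMod (L * m), (n : ZMod (L * m)) * w0 = iota L a := by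
  obtain ⟨q, hq⟩ := hnL
  refine ⟨((q * a.val : ℤ) : ZMod (L * m)), ?_⟩
  unfold iota
  rw [← Int.cast_mul, ← mul_assoc, ← hq]
  push_cast; rfl

lemma DS_smul {R : Type*} [AddCommGroup R] (c : ZMod (L * m) → R) (S : Finset (ZMod m))
    (x n : ZMod m → ℤ) :
    ∑ w, DS L S x n w • c w =
      ∑ a ∈ S, (x a * (n a).sign) • ∑ w ∈ fib (L * m) (n a) (iota L a), c w := by
  unfold DS
  have h1 : ∀ w : ZMod (L * m), (∑ a ∈ S,
      if (n a : ZMod (L * m)) * w = iota L a then x a * (n a).sign else 0) • c w =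
      ∑ a ∈ S, if (n a : ZMod (L * m)) * w = iota L a then (x a * (n a).sign) • c w else 0 := by
    intro w
    rw [sum_smul]
    refine sum_congr rfl fun a _ => ?_
    split_ifs
    · rfl
    · rw [zero_smul]
  rw [sum_congr rfl fun w _ => h1 w, sum_comm]
  refine sum_congr rfl fun a _ => ?_
  unfold fib
  rw [sum_filter, smul_sum]
  refine sum_congr rfl fun w _ => ?_
  split_ifs
  · rfl
  · rw [smul_zero]

lemma DS_dist {R : Type*} [AddCommGroup R] {c : ZMod (L * m) → R} (hc : OddDist c)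
    (S : Finset (ZMod m)) (x n : ZMod m → ℤ) (hn : ∀ a ∈ S, n a ≠ 0)
    (hnL : ∀ a ∈ S, n a ∣ (L : ℤ)) :
    ∑ w, DS L S x n w • c w = ∑ a ∈ S, x a • c (iota L a) := by
  rw [DS_smul]
  refine sum_congr rfl fun a ha => ?_
  obtain ⟨w0, hw0⟩ := exists_div (hnL a ha) a
  rw [← hw0, dist_int hc (hn a ha) (by push_cast; exact (hnL a ha).mul_right _), smul_smul]
  have h1 : (n a).sign * (n a).sign = 1 := by
    rcases lt_or_gt_of_ne (hn a ha) with h | h
    · rw [Int.sign_eq_neg_one_of_neg h]; norm_num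
    · rw [Int.sign_eq_one_of_pos h]; norm_num
  rw [mul_assoc, h1, mul_one]

/-- multiplication by a number prime to `n` permutes the division points -/
lemma sum_fib_mul {R : Type*} [AddCommMonoid R] (c : ZMod (L * m) → R) {n : ℤ} {p : ℕ}
    (hn : n ≠ 0) (hnL : n ∣ ((L * m : ℕ) : ℤ)) (hp : IsCoprime (p : ℤ) n) (w0 : ZMod (L * m)) :
    ∑ w ∈ fib (L * m) n ((n : ZMod (L * m)) * w0), c ((p : ZMod (L * m)) * w) =
      ∑ w ∈ fib (L * m) n ((n : ZMod (L * m)) * ((p : ZMod (L * m)) * w0)), c w := by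
  obtain ⟨u, v, huv⟩ := hp
  have huv' : (u : ZMod (L * m)) * (p : ZMod (L * m)) + (v : ZMod (L * m)) * (n : ZMod (L * m)) = 1 := by
    have := congrArg (fun z : ℤ => (z : ZMod (L * m))) huv
    push_cast at this
    exact this
  refine sum_bij (fun w _ => (p : ZMod (L * m)) * w) ?_ ?_ ?_ ?_
  · intro w hw
    rw [mem_fib] at hw ⊢
    linear_combination (p : ZMod (L * m)) * hw
  · intro w hw w' hw' h
    rw [mem_fib] at hw hw'
    linear_combination (-(w - w')) * huv' + (u : ZMod (L * m)) * h +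
      (v : ZMod (L * m)) * (hw - hw')
  · intro w hw
    rw [mem_fib] at hw
    -- preimage: w0 + u * (w - p w0)
    refine ⟨w0 + (u : ZMod (L * m)) * (w - (p : ZMod (L * m)) * w0), ?_, ?_⟩
    · rw [mem_fib]
      linear_combination (u : ZMod (L * m)) * hw
    · linear_combination (w - (p : ZMod (L * m)) * w0) * huv' - (v : ZMod (L * m)) * hw
  · intro w _; rfl

lemma DS_dist_mul {R : Type*} [AddCommGroup R] {c : ZMod (L * m) → R} (hc : OddDist c)
    (S : Finset (ZMod m)) (x n : ZMod m → ℤ) (hn : ∀ a ∈ S, n a ≠ 0)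
    (hnL : ∀ a ∈ S, n a ∣ (L : ℤ)) {p : ℕ} (hp : ∀ a ∈ S, IsCoprime (p : ℤ) (n a)) :
    ∑ w, DS L S x n w • c ((p : ZMod (L * m)) * w) =
      ∑ a ∈ S, x a • c ((p : ZMod (L * m)) * iota L a) := by
  rw [DS_smul (fun w => c ((p : ZMod (L * m)) * w))]
  refine sum_congr rfl fun a ha => ?_
  obtain ⟨w0, hw0⟩ := exists_div (hnL a ha) a
  have hnM : n a ∣ ((L * m : ℕ) : ℤ) := by push_cast; exact (hnL a ha).mul_right _
  rw [← hw0, sum_fib_mul c (hn a ha) hnM (hp a ha), dist_int hc (hn a ha) hnM, smul_smul]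
  have h1 : (n a).sign * (n a).sign = 1 := by
    rcases lt_or_gt_of_ne (hn a ha) with h | h
    · rw [Int.sign_eq_neg_one_of_neg h]; norm_num
    · rw [Int.sign_eq_one_of_pos h]; norm_num
  rw [mul_assoc, h1, mul_one]
  congr 2; ring

lemma FC_DS (S : Finset (ZMod m)) (x n : ZMod m → ℤ) (hn : ∀ a ∈ S, n a ≠ 0)
    (hnL : ∀ a ∈ S, n a ∣ (L : ℤ)) (j : ℕ) :
    FC (DS L S x n) j = ∑ a ∈ S.filter (fun a => n a ∣ j),
      ((x a * n a : ℤ) : ℂ) * ZMod.stdAddChar ((((j : ℤ) / n a : ℤ) : ZMod m) * a) := by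
  have h0 : FC (DS L S x n) j = ∑ w, DS L S x n w •
      (ZMod.stdAddChar ((j : ZMod (L * m)) * w) : ℂ) := by
    unfold FC
    refine sum_congr rfl fun w _ => ?_
    rw [zsmul_eq_mul]
  rw [h0, DS_smul (fun w => (ZMod.stdAddChar ((j : ZMod (L * m)) * w) : ℂ)), sum_filter]
  refine sum_congr rfl fun a ha => ?_
  obtain ⟨w0, hw0⟩ := exists_div (hnL a ha) a
  have hnM : n a ∣ ((L * m : ℕ) : ℤ) := by push_cast; exact (hnL a ha).mul_right _
  rw [← hw0, char_fib_int (hn a ha) hnM, hw0]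
  split_ifs with h
  · rw [← iota_intMul rfl, stdAddChar_iota rfl, zsmul_eq_mul, ← mul_assoc]
    congr 1
    have h1 : (n a).sign * (n a).sign = 1 := by
      rcases lt_or_gt_of_ne (hn a ha) with h | h
      · rw [Int.sign_eq_neg_one_of_neg h]; norm_num
      · rw [Int.sign_eq_one_of_pos h]; norm_num
    rw [← Int.cast_mul]
    congr 1
    linear_combination (x a * n a) * h1
  · simp

lemma card_DS (S : Finset (ZMod m)) (x n : ZMod m → ℤ) (hn : ∀ a ∈ S, n a ≠ 0)
    (hnL : ∀ a ∈ S, n a ∣ (L : ℤ)) (N : ℕ) (hN : ∀ a ∈ S, |n a| ≤ N) :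
    (univ.filter (fun w => DS L S x n w ≠ 0)).card ≤ S.card * N := by
  have h1 : univ.filter (fun w => DS L S x n w ≠ 0) ⊆
      S.biUnion (fun a => fib (L * m) (n a) (iota L a)) := by
    intro w hw
    rw [mem_filter] at hw
    by_contra hcon
    apply hw.2
    unfold DS
    apply sum_eq_zero
    intro a ha
    rw [if_neg]
    intro h
    apply hcon
    rw [mem_biUnion]
    exact ⟨a, ha, mem_fib.mpr h⟩
  refine (card_le_card h1).trans (card_biUnion_le_card_mul _ _ _ ?_)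
  intro a ha
  obtain ⟨w0, hw0⟩ := exists_div (hnL a ha) a
  have hnM : n a ∣ ((L * m : ℕ) : ℤ) := by push_cast; exact (hnL a ha).mul_right _
  have h2 : (fib (L * m) (n a) (iota L a)).card = (n a).natAbs := by
    rw [← hw0]
    obtain ⟨k, hk | hk⟩ := (n a).eq_nat_or_neg
    · rw [hk] at hnM ⊢
      rw [Int.natAbs_natCast, Int.cast_natCast]
      exact card_fib (by exact_mod_cast hnM) w0
    · rw [hk] at hnM ⊢
      rw [neg_dvd] at hnM
      have h5 : ((-(k : ℤ) : ℤ) : ZMod (L * m)) * w0 = -((k : ZMod (L * m)) * w0) := by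
        push_cast; ring
      rw [h5, fib_neg, Int.natAbs_neg, Int.natAbs_natCast]
      exact card_fib (by exact_mod_cast hnM) w0
  rw [h2]
  have := hN a ha
  have h3 : ((n a).natAbs : ℤ) ≤ N := by rw [Int.natCast_natAbs]; exact this
  exact_mod_cast h3

end

end Pool.Agent.N997
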