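import Pool.Agent.N997.Induct
import Pool.Agent.Y2.Cv.Families

/-!
From relations back to Hodge characters and to the closure `Generated`.
-/

namespace Pool.Agent.N997

open Finset Pool.Agent.H916R2 Pool.Agent.Y2.Cv

/-- A relation of weight at most `2 r` is represented by a Hodge character with at most `2 r` entries. -/
lemma exists_hodge_card {m : ℕ} [NeZero m] (x : ZMod m → ℤ) (hx : Rel x) (r : ℕ)
    (hr : ∑ a, |x a| ≤ ((2 * r : ℕ) : ℤ)) :
    ∃ s : Multiset (ZMod m), IsHodge m s ∧ Multiset.card s ≤ 2 * r ∧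
      ∀ (R : Type) [AddCommGroup R] (c : ZMod m → R),
        OddDist c → ∑ a, x a • c a = (s.map c).sum := by
  classical
  let s1 : Multiset (ZMod m) := ∑ b ∈ univ.erase (0 : ZMod m),
    (Multiset.replicate (x b).toNat b + Multiset.replicate (-(x b)).toNat (-b))
  have hcard1 : Multiset.card s1 ≤ 2 * r := by
    have h1 : Multiset.card s1 = ∑ b ∈ univ.erase (0 : ZMod m), (x b).natAbs := by
      simp only [s1]
      rw [Multiset.card_sum]
      refine sum_congr rfl fun b _ => ?_
      rw [Multiset.card_add, Multiset.card_replicate, Multiset.card_replicate]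
      omega
    have h2 : ∑ b ∈ univ.erase (0 : ZMod m), (x b).natAbs ≤ ∑ b, (x b).natAbs :=
      sum_le_sum_of_subset (erase_subset _ _)
    have h3 : ((∑ b, (x b).natAbs : ℕ) : ℤ) = ∑ b, |x b| := by
      rw [Nat.cast_sum]
      exact sum_congr rfl fun b _ => Int.natCast_natAbs _
    have h4 : ((∑ b, (x b).natAbs : ℕ) : ℤ) ≤ ((2 * r : ℕ) : ℤ) := by rw [h3]; exact hr
    have h5 : ∑ b, (x b).natAbs ≤ 2 * r := by exact_mod_cast h4
    omega
  have hs1 : ∀ (R : Type) [AddCommGroup R] (c : ZMod m → R), (∀ a, c (-a) = - c a) → c 0 = 0 →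
      ∑ a, x a • c a = (s1.map c).sum := by
    intro R _ c hneg hz
    have h1 : (s1.map c).sum = ∑ b ∈ univ.erase (0 : ZMod m),
        ((Multiset.replicate (x b).toNat b + Multiset.replicate (-(x b)).toNat (-b)).map c).sum := by
      have : ∀ S : Finset (ZMod m), ((∑ b ∈ S, (Multiset.replicate (x b).toNat b +
          Multiset.replicate (-(x b)).toNat (-b))).map c).sum = ∑ b ∈ S,
          ((Multiset.replicate (x b).toNat b + Multiset.replicate (-(x b)).toNat (-b)).map c).sum := by
        intro S
        induction S using Finset.induction_on with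
        | empty => simp
        | insert a S ha ih =>
          rw [Finset.sum_insert ha, Finset.sum_insert ha, Multiset.map_add, Multiset.sum_add, ih]
      exact this _
    rw [h1, ← Finset.add_sum_erase univ (fun a => x a • c a) (mem_univ (0 : ZMod m)), hz, smul_zero,
      zero_add]
    refine sum_congr rfl fun b _ => ?_
    rw [Multiset.map_add, Multiset.sum_add, Multiset.map_replicate, Multiset.map_replicate,
      Multiset.sum_replicate, Multiset.sum_replicate, hneg]
    rcases le_total 0 (x b) with h | h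
    · have e1 : ((x b).toNat : ℤ) = x b := Int.toNat_of_nonneg h
      have e2 : (-(x b)).toNat = 0 := Int.toNat_of_nonpos (by omega)
      rw [e2, zero_smul, add_zero, ← natCast_zsmul, e1]
    · have e1 : ((-(x b)).toNat : ℤ) = -(x b) := Int.toNat_of_nonneg (by omega)
      have e2 : (x b).toNat = 0 := Int.toNat_of_nonpos h
      rw [e2, zero_smul, zero_add, ← natCast_zsmul, e1]
      simp
  have h01 : (0 : ZMod m) ∉ s1 := by
    intro h
    simp only [s1] at h
    rw [Multiset.mem_sum] at h
    obtain ⟨b, hb, h⟩ := h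
    have hb0 : b ≠ 0 := (Finset.mem_erase.mp hb).1
    rw [Multiset.mem_add] at h
    rcases h with h | h
    · exact hb0 (Multiset.eq_of_mem_replicate h).symm
    · exact hb0 (neg_eq_zero.mp (Multiset.eq_of_mem_replicate h).symm)
  have hsaw : ∀ t : (ZMod m)ˣ, (s1.map fun a => saw ((t : ZMod m) * a)).sum = 0 := by
    intro t
    rw [← hs1 ℤ (fun a => saw ((t : ZMod m) * a)) (fun a => by
      simp only [mul_neg, saw_neg]) (by simp [saw_zero])]
    have := hx t
    simpa using this
  by_cases heven : Even (Multiset.card s1)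
  · refine ⟨s1, isHodge_of_saw h01 heven hsaw, hcard1, ?_⟩
    intro R _ c hc
    exact hs1 R c hc.neg (hc.half 0 (by simp))
  · -- m is even
    rw [Nat.not_even_iff_odd] at heven
    have h1 := saw_sum_eq s1 h01 1
    rw [hsaw 1] at h1
    have hm2 : 2 ∣ m := by
      obtain ⟨k, hk⟩ := heven
      have h2 : (m : ℤ) * (2 * k + 1) =
          2 * (((s1.map fun a => (((1 : (ZMod m)ˣ) : ZMod m) * a).val).sum : ℕ) : ℤ) := by
        rw [hk] at h1
        push_cast at h1
        push_cast
        linarith
      have h3 : (2 : ℤ) ∣ (m : ℤ) * (2 * k + 1) := ⟨_, h2⟩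
      have h4 : (2 : ℤ) ∣ (m : ℤ) := by
        rcases Int.Prime.dvd_mul' Nat.prime_two h3 with h | h
        · exact_mod_cast h
        · exfalso; omega
      exact_mod_cast h4
    set h : ZMod m := ((m / 2 : ℕ) : ZMod m) with hh
    have hhh : h + h = 0 := by
      have : ((2 * (m / 2) : ℕ) : ZMod m) = 0 := by rw [Nat.mul_div_cancel' hm2]; simp
      rw [hh, ← two_mul]; push_cast at this; exact this
    have hh0 : h ≠ 0 := by
      intro h'
      rw [hh, ZMod.natCast_eq_zero_iff] at h'
      have hmp := NeZero.pos m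
      have h5 : 0 < m / 2 := Nat.div_pos (Nat.le_of_dvd hmp hm2) (by norm_num)
      have := Nat.le_of_dvd h5 h'
      omega
    refine ⟨h ::ₘ s1, isHodge_of_saw ?_ ?_ ?_, ?_, ?_⟩
    · rw [Multiset.mem_cons, not_or]; exact ⟨Ne.symm hh0, h01⟩
    · rw [Multiset.card_cons]; exact heven.add_one
    · intro t
      rw [Multiset.map_cons, Multiset.sum_cons, hsaw t, add_zero]
      apply saw_half
      rw [← mul_add, hhh, mul_zero]
    · rw [Multiset.card_cons]
      obtain ⟨k, hk⟩ := heven
      omega
    · intro R _ c hc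
      rw [hs1 R c hc.neg (hc.half 0 (by simp)), Multiset.map_cons, Multiset.sum_cons,
        hc.half h hhh, zero_add]

lemma sum_count_abs {m : ℕ} [NeZero m] (s : Multiset (ZMod m)) :
    ∑ a, |((s.count a : ℕ) : ℤ)| = ((Multiset.card s : ℕ) : ℤ) := by
  classical
  have h1 : ∀ a, |((s.count a : ℕ) : ℤ)| = ((s.count a : ℕ) : ℤ) := fun a => Nat.abs_cast _
  rw [sum_congr rfl fun a _ => h1 a, ← Nat.cast_sum]
  congr 1
  exact Multiset.sum_count_eq_card (fun a _ => mem_univ a)

/-- The finiteness theorem for Hodge characters. -/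
theorem reduce_hodge {m : ℕ} [NeZero m] (r : ℕ) (s : Multiset (ZMod m)) (hs : IsHodge m s)
    (hcard : Multiset.card s ≤ 2 * r) :
    ∃ (s0 : Multiset (ZMod (Nat.gcd m (univDegree (2 * r))))) (L L' : ℕ),
      IsHodge (Nat.gcd m (univDegree (2 * r))) s0 ∧ Multiset.card s0 ≤ 2 * r ∧ 0 < L ∧
      L * m = L' * Nat.gcd m (univDegree (2 * r)) ∧
      ∀ (M : ℕ) [NeZero M], L * m = M → ∀ (R : Type) [AddCommGroup R] (c : ZMod M → R), OddDist c →
        ((s.map (iota L)).map c).sum = ((s0.map (iota L')).map c).sum := by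
  set g := Nat.gcd m (univDegree (2 * r)) with hg
  have hg0 : NeZero g := ⟨by rw [hg]; exact Nat.gcd_ne_zero_left (NeZero.ne m)⟩
  obtain ⟨m', hm', x', h1, h2, h3, h4, L, L', hL, hL', hLL, hid⟩ :=
    reduce (2 * r) _ m (fun a : ZMod m => ((s.count a : ℕ) : ℤ)) hs.rel
      (by rw [sum_count_abs]; exact_mod_cast hcard) le_rfl
  obtain ⟨s', hs', hcard', hid'⟩ := exists_hodge_card x' h3 r h4
  obtain ⟨q, hq⟩ : m' ∣ g := Nat.dvd_gcd h1 h2
  have hq' : q * m' = g := by rw [hq, mul_comm]
  have hq0 : 0 < q := Nat.pos_of_ne_zero (by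
    rintro rfl; rw [zero_mul] at hq'; exact NeZero.ne g hq'.symm)
  obtain ⟨q2, hq2⟩ : g ∣ m := Nat.gcd_dvd_left _ _
  refine ⟨s'.map (iota q), L, L * q2, hs'.iota hq', by rw [Multiset.card_map]; exact hcard', hL,
    by rw [mul_assoc, mul_comm q2 g, ← hq2], ?_⟩
  intro M _ hM R _ c hc
  have h5 := hid M hM R c hc
  have h6 : L' * m' = M := by rw [← hLL, hM]
  rw [sum_count s (fun a => c (iota L a)), hid' R (fun b => c (iota L' b)) (hc.comp_iota h6)] at h5
  rw [Multiset.map_map, Multiset.map_map, Multiset.map_map]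
  have h7 : (c ∘ (iota L : ZMod m → ZMod M)) = fun a => c (iota L a) := rfl
  rw [h7, h5]
  congr 1
  apply Multiset.map_congr rfl
  intro b _
  simp only [Function.comp_apply]
  have h8 : (L * q2) * g = M := by rw [mul_assoc, mul_comm q2 g, ← hq2, hM]
  rw [iota_comp h8]
  congr 2
  have h9 : L' * m' = (L * q2 * q) * m' := by rw [h6, ← h8, ← hq']; ring
  exact Nat.eq_of_mul_eq_mul_right (NeZero.pos m') h9

/-- an odd distribution which kills the base kills the closure -/
lemma kil_generated {m : ℕ} [NeZero m] {base : Multiset (ZMod m) → Prop} {R : Type*} [AddCommGroup R]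
    {c : ZMod m → R} (hc : OddDist c) (hk : ∀ s, base s → (s.map c).sum = 0)
    {s : Multiset (ZMod m)} (hs : Generated m base s) : (s.map c).sum = 0 := by
  induction hs with
  | ofBase s hs => exact hk s hs
  | pair a ha =>
    simp only [Multiset.insert_eq_cons, Multiset.map_cons, Multiset.map_singleton,
      Multiset.sum_cons, Multiset.sum_singleton]
    rw [hc.neg, add_neg_cancel]
  | standard p hp hp2 hpm a ha =>
    rw [Multiset.map_cons, Multiset.sum_cons, Multiset.map_map, hc.neg]
    have h1 : ((Multiset.range p).map (c ∘ fun i : ℕ => a + (i : ZMod m) *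
        ((m / p : ℕ) : ZMod m))).sum = ∑ i ∈ range p, c (a + (i : ZMod m) * ((m / p : ℕ) : ZMod m)) :=
      rfl
    rw [h1, hc.dist p (m / p) hp (Nat.mul_div_cancel' hpm), neg_add_cancel]
  | standardTwo hm a ha =>
    have hh : ((m / 2 : ℕ) : ZMod m) + ((m / 2 : ℕ) : ZMod m) = 0 := by
      have : ((2 * (m / 2) : ℕ) : ZMod m) = 0 := by rw [Nat.mul_div_cancel' hm]; simp
      rw [← two_mul]; push_cast at this; exact this
    have h1 := hc.dist 2 (m / 2) Nat.prime_two (Nat.mul_div_cancel' hm) a
    rw [sum_range_succ, sum_range_one] at h1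
    simp only [Multiset.insert_eq_cons, Multiset.map_cons, Multiset.map_singleton,
      Multiset.sum_cons, Multiset.sum_singleton]
    rw [hc.neg, hc.half _ hh, add_zero]
    push_cast at h1
    rw [zero_mul, add_zero, one_mul] at h1
    rw [← h1]
    abel
  | join s t _ _ ihs iht => rw [Multiset.map_add, Multiset.sum_add, ihs, iht, add_zero]
  | cancel a s _ ih =>
    rw [Multiset.map_cons, Multiset.map_cons, Multiset.sum_cons, Multiset.sum_cons, hc.neg] at ih
    rw [← ih]; abel

lemma fromFermat_good {M g r : ℕ} [NeZero M] [NeZero g] (h : g ∣ M) (s : Multiset (ZMod M))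
    (hs : FromFermat M g r s) : IsHodge M s := by
  obtain ⟨s0, h0, _, rfl⟩ := hs
  exact h0.iota (Nat.div_mul_cancel h)

lemma fromFermat_neg {M g r : ℕ} [NeZero M] [NeZero g] (h : g ∣ M) (s : Multiset (ZMod M))
    (hs : FromFermat M g r s) : FromFermat M g r (s.map Neg.neg) := by
  obtain ⟨s0, h0, h1, rfl⟩ := hs
  refine ⟨s0.map Neg.neg, h0.neg, by rw [Multiset.card_map]; exact h1, ?_⟩
  rw [Multiset.map_map, Multiset.map_map]
  apply Multiset.map_congr rfl
  intro b _
  simp only [Function.comp_apply]
  exact (iota_neg (Nat.div_mul_cancel h) b).symm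

/-- adding pairs to a Hodge character -/
lemma IsHodge.add_pairs {g : ℕ} [NeZero g] {s0 : Multiset (ZMod g)} (h0 : IsHodge g s0)
    {b : ZMod g} (hb : b ≠ 0) (n : ℕ) :
    IsHodge g (s0 + Multiset.replicate n b + Multiset.replicate n (-b)) := by
  apply isHodge_of_saw
  · rw [Multiset.mem_add, Multiset.mem_add, not_or, not_or]
    refine ⟨⟨h0.1, ?_⟩, ?_⟩
    · intro h; exact hb (Multiset.eq_of_mem_replicate h).symm
    · intro h; exact hb (neg_eq_zero.mp (Multiset.eq_of_mem_replicate h).symm)
  · rw [Multiset.card_add, Multiset.card_add, Multiset.card_replicate, Multiset.card_replicate,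
      add_assoc]
    exact h0.2.1.add (Even.add_self n)
  · intro t
    rw [Multiset.map_add, Multiset.map_add, Multiset.sum_add, Multiset.sum_add, h0.saw_sum t,
      Multiset.map_replicate, Multiset.map_replicate, Multiset.sum_replicate,
      Multiset.sum_replicate, mul_neg, saw_neg]
    simp

/-- Reduction to one degree. -/
theorem main_one {m : ℕ} (hm : 0 < m) (r : ℕ) (s : Multiset (ZMod m)) (hs : IsHodge m s)
    (hne : s ≠ 0) (hcard : Multiset.card s ≤ 2 * r) :
    ∃ l : ℕ, 0 < l ∧ Generated (l * m) (FromFermat (l * m) (Nat.gcd m (univDegree (2 * r))) r)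
      (s.map fun a => ((l * a.val : ℕ) : ZMod (l * m))) := by
  have hm0 : NeZero m := ⟨hm.ne'⟩
  set g := Nat.gcd m (univDegree (2 * r)) with hg
  have hg0 : NeZero g := ⟨by rw [hg]; exact Nat.gcd_ne_zero_left (NeZero.ne m)⟩
  obtain ⟨s0, L, L', h0, hc0, hL, hLL, hid⟩ := reduce_hodge r s hs hcard
  have hM0 : NeZero (L * m) := ⟨Nat.mul_ne_zero hL.ne' hm.ne'⟩
  have hgM : g ∣ L * m := (Nat.gcd_dvd_left _ _).mul_left L
  have hL'g : L * m / g = L' := by
    rw [hLL]; exact Nat.mul_div_cancel _ (NeZero.pos g)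
  refine ⟨L, hL, ?_⟩
  set base := FromFermat (L * m) g r with hbase
  have hbg : ∀ s, base s → (0 : ZMod (L * m)) ∉ s ∧ Even (Multiset.card s) := fun s h =>
    ⟨(fromFermat_good hgM s h).1, (fromFermat_good hgM s h).2.1⟩
  have hbn : ∀ s, base s → base (s.map Neg.neg) := fun s h => fromFermat_neg hgM s h
  have hl : IsHodge (L * m) (s.map (iota L)) := hs.iota rfl
  apply generated_of_mem_LL hbg hbn hl.1 hl.2.1
  · intro h; exact hne (Multiset.map_eq_zero.mp h)
  · have h1 := hid (L * m) rfl _ (cQ (L * m) base) cQ_oddDist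
    have h2 : ((s0.map (iota L' : ZMod g → ZMod (L * m))).map (cQ (L * m) base)).sum = 0 := by
      rcases Multiset.empty_or_exists_mem s0 with h3 | ⟨b, hb⟩
      · rw [h3]; simp
      · have hb0 : b ≠ 0 := fun h => h0.1 (h ▸ hb)
        obtain ⟨k, hk⟩ := h0.2.1
        set n := r - k with hn
        have h4 := Generated.ofBase (m := L * m) (base := base)
          ((s0 + Multiset.replicate n b + Multiset.replicate n (-b)).map (iota L'))
          ⟨_, IsHodge.add_pairs h0 hb0 n, by
            rw [Multiset.card_add, Multiset.card_add, Multiset.card_replicate,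
              Multiset.card_replicate]
            omega, by rw [hL'g]; rfl⟩
        have h5 := cQ_sum_eq_zero h4
        rw [Multiset.map_add, Multiset.map_add, Multiset.map_add, Multiset.map_add,
          Multiset.sum_add, Multiset.sum_add, Multiset.map_replicate, Multiset.map_replicate,
          Multiset.map_replicate, Multiset.map_replicate, Multiset.sum_replicate,
          Multiset.sum_replicate, iota_neg hLL.symm, cQ_oddDist.neg, neg_nsmul,
          add_neg_cancel_right] at h5
        exact h5
    rw [h2, cQ_sum, QuotientAddGroup.eq_zero_iff] at h1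
    exact h1

/-- Degrees for which the reduction ends in a good degree. -/
theorem main_good {m : ℕ} (hm : 0 < m) (r : ℕ) (hgood : GoodDegree2 (Nat.gcd m (univDegree (2 * r))))
    (s : Multiset (ZMod m)) (hs : IsHodge m s) (hne : s ≠ 0) (hcard : Multiset.card s ≤ 2 * r) :
    ∃ l : ℕ, 0 < l ∧ Generated (l * m) (SurfaceOrCurveProduct (l * m))
      (s.map fun a => ((l * a.val : ℕ) : ZMod (l * m))) := by
  have hm0 : NeZero m := ⟨hm.ne'⟩
  set g := Nat.gcd m (univDegree (2 * r)) with hg
  have hg0 : NeZero g := ⟨by rw [hg]; exact Nat.gcd_ne_zero_left (NeZero.ne m)⟩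
  obtain ⟨s0, L, L', h0, hc0, hL, hLL, hid⟩ := reduce_hodge r s hs hcard
  have hM1 : NeZero (L * m) := ⟨Nat.mul_ne_zero hL.ne' hm.ne'⟩
  have hM0 : NeZero (2 * L * m) := ⟨Nat.mul_ne_zero (by omega) hm.ne'⟩
  refine ⟨2 * L, by omega, ?_⟩
  set base := SurfaceOrCurveProduct (2 * L * m) with hbase
  have hl : IsHodge (2 * L * m) (s.map (iota (2 * L))) := hs.iota rfl
  apply generated_of_mem_LL base_good base_neg hl.1 hl.2.1
  · intro h; exact hne (Multiset.map_eq_zero.mp h)
  · have h2L : 2 * (L * m) = 2 * L * m := by ring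
    set c : ZMod (2 * L * m) → _ := cQ (2 * L * m) base with hc
    have hcO : OddDist c := cQ_oddDist
    -- lifts of base characters
    have hlift : ∀ (q m' : ℕ) [NeZero m'] (_ : q * m' = 2 * L * m) (t : Multiset (ZMod m')),
        SurfaceOrCurveProduct m' t → (t.map fun b => c (iota q b)).sum = 0 := by
      intro q m' _ hq t ht
      have h1 : SurfaceOrCurveProduct (2 * L * m) (t.map (iota q : ZMod m' → ZMod (2 * L * m))) := by
        rcases ht with ⟨h1, h2⟩ | h1
        · exact Or.inl ⟨h1.iota hq, by rw [Multiset.card_map]; exact h2⟩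
        · exact Or.inr (h1.lift hq)
      have h2 := cQ_sum_eq_zero (Generated.ofBase (m := 2 * L * m) (base := base) _ h1)
      rw [Multiset.map_map] at h2
      exact h2
    have h1 := hid (L * m) rfl _ (fun b => c (iota 2 b)) (hcO.comp_iota h2L)
    have h2 : ((s0.map (iota L' : ZMod g → ZMod (L * m))).map fun b => c (iota 2 b)).sum = 0 := by
      rcases eq_or_ne s0 0 with h3 | h3
      · rw [h3]; simp
      have hq : 2 * L' * g = 2 * L * m := by rw [mul_assoc, ← hLL]; ring
      have e1 : ((s0.map (iota L' : ZMod g → ZMod (L * m))).map fun b => c (iota 2 b)).sum =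
          (s0.map fun b => c (iota (2 * L') b)).sum := by
        rw [Multiset.map_map]
        congr 1
        apply Multiset.map_congr rfl
        intro b _
        simp only [Function.comp_apply]
        rw [iota_comp h2L]
      rw [e1]
      by_cases heven : 2 ∣ g
      · have h4 := main2_even (NeZero.pos g) heven hgood s0 h0 h3
        exact kil_generated (hcO.comp_iota hq) (fun t ht => hlift (2 * L') g hq t ht) h4
      · have h4 := main2_odd (NeZero.pos g) heven hgood s0 h0 h3
        have hq2 : L' * (2 * g) = 2 * L * m := by rw [← hq]; ring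
        have h5 := kil_generated (hcO.comp_iota hq2) (fun t ht => hlift L' (2 * g) hq2 t ht) h4
        rw [Multiset.map_map] at h5
        rw [← h5]
        congr 1
        apply Multiset.map_congr rfl
        intro b _
        simp only [Function.comp_apply]
        have h6 : ((2 * b.val : ℕ) : ZMod (2 * g)) = iota 2 b := rfl
        rw [h6, iota_comp hq2, mul_comm L' 2]
    rw [h2, Multiset.map_map] at h1
    have h3 : (s.map ((fun b => c (iota 2 b)) ∘ (iota L : ZMod m → ZMod (L * m)))).sum =
        ((s.map (iota (2 * L) : ZMod m → ZMod (2 * L * m))).map c).sum := by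
      rw [Multiset.map_map]
      congr 1
      apply Multiset.map_congr rfl
      intro b _
      simp only [Function.comp_apply]
      rw [iota_comp h2L]
    rw [h3, hc, cQ_sum, QuotientAddGroup.eq_zero_iff] at h1
    exact h1

/-- Both theorems in one statement. -/
theorem main {m : ℕ} (hm : 0 < m) (r : ℕ) (s : Multiset (ZMod m)) (hs : IsHodge m s)
    (hne : s ≠ 0) (hcard : Multiset.card s ≤ 2 * r) :
    ∃ l : ℕ, 0 < l ∧ Generated (l * m) (fun u => SurfaceOrCurveProduct (l * m) u ∨
      (¬ GoodDegree2 (Nat.gcd m (univDegree (2 * r))) ∧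
        FromFermat (l * m) (Nat.gcd m (univDegree (2 * r))) r u))
      (s.map fun a => ((l * a.val : ℕ) : ZMod (l * m))) := by
  by_cases hg : GoodDegree2 (Nat.gcd m (univDegree (2 * r)))
  · obtain ⟨l, hl, h⟩ := main_good hm r hg s hs hne hcard
    exact ⟨l, hl, generated_mono (fun _ h => Or.inl h) h⟩
  · obtain ⟨l, hl, h⟩ := main_one hm r s hs hne hcard
    exact ⟨l, hl, generated_mono (fun _ h => Or.inr ⟨hg, h⟩) h⟩

end Pool.Agent.N997
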