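import Pool.Agent.N997.Core

/-!
Every relation with few entries is equivalent to one whose level divides the universal degree.
-/

namespace Pool.Agent.N997

open Finset Pool.Agent.H916R2

lemma exists_prime_power {k m : ℕ} (hm : m ≠ 0) (h : ¬ m ∣ univDegree k) :
    ∃ p f, p.Prime ∧ 0 < f ∧ p ^ f ∣ m ∧ (f = 1 ∨ p ^ (f + 1) ∣ m) ∧ bound k < p ^ f := by
  by_contra hcon
  apply h
  have h1 : ∀ p ∈ m.primeFactors, p ≤ bound k := by
    intro p hp
    by_contra hlt
    apply hcon
    refine ⟨p, 1, Nat.prime_of_mem_primeFactors hp, one_pos, ?_, Or.inl rfl, ?_⟩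
    · rw [pow_one]; exact Nat.dvd_of_mem_primeFactors hp
    · rw [pow_one]; omega
  have h2 : ∀ p ∈ m.primeFactors, m.factorization p ≤ Nat.log p (bound k) + 1 := by
    intro p hp
    by_contra hlt
    apply hcon
    have hpp := Nat.prime_of_mem_primeFactors hp
    have h3 : p ^ (Nat.log p (bound k) + 1 + 1) ∣ m := by
      rw [hpp.pow_dvd_iff_le_factorization hm]; omega
    refine ⟨p, Nat.log p (bound k) + 1, hpp, Nat.succ_pos _, (pow_dvd_pow p (Nat.le_succ _)).trans h3,
      Or.inr h3, Nat.lt_pow_succ_log_self hpp.one_lt _⟩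
  have h3 : m.primeFactors ⊆ (Finset.range (bound k + 1)).filter Nat.Prime := by
    intro p hp
    rw [mem_filter, mem_range]
    exact ⟨by have := h1 p hp; omega, Nat.prime_of_mem_primeFactors hp⟩
  calc m = ∏ p ∈ m.primeFactors, p ^ m.factorization p :=
        (Nat.prod_factorization_pow_eq_self hm).symm
    _ ∣ ∏ p ∈ m.primeFactors, p ^ (Nat.log p (bound k) + 1) :=
        prod_dvd_prod_of_dvd _ _ fun p hp => pow_dvd_pow p (h2 p hp)
    _ ∣ univDegree k := prod_dvd_prod_of_subset _ _ _ h3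

/-- Two integral combinations of different levels have the same values under all odd distributions
of a common level. -/
def Eqv {m m' : ℕ} [NeZero m] [NeZero m'] (x : ZMod m → ℤ) (x' : ZMod m' → ℤ) : Prop :=
  ∃ L L' : ℕ, 0 < L ∧ 0 < L' ∧ L * m = L' * m' ∧ ∀ (M : ℕ) [NeZero M], L * m = M →
    ∀ (R : Type) [AddCommGroup R] (c : ZMod M → R), OddDist c →
      ∑ a, x a • c (iota L a) = ∑ a, x' a • c (iota L' a)

lemma Eqv.refl {m : ℕ} [NeZero m] (x : ZMod m → ℤ) : Eqv x x :=
  ⟨1, 1, one_pos, one_pos, rfl, fun _ _ _ _ _ _ _ => rfl⟩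

lemma Eqv.trans {m m' m'' : ℕ} [NeZero m] [NeZero m'] [NeZero m''] {x : ZMod m → ℤ}
    {x' : ZMod m' → ℤ} {x'' : ZMod m'' → ℤ} (h : Eqv x x') (h' : Eqv x' x'') : Eqv x x'' := by
  obtain ⟨L, L', hL, hL', hLL, hid⟩ := h
  obtain ⟨K, K', hK, hK', hKK, hid'⟩ := h'
  refine ⟨K * L, L' * K', Nat.mul_pos hK hL, Nat.mul_pos hL' hK', ?_, ?_⟩
  · rw [mul_assoc, hLL, mul_assoc, ← hKK]; ring
  · intro M _ hM R _ c hc
    have hLm : NeZero (L * m) := ⟨Nat.mul_ne_zero hL.ne' (NeZero.ne m)⟩
    have hKm : NeZero (K * m') := ⟨Nat.mul_ne_zero hK.ne' (NeZero.ne m')⟩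
    have h1 : K * (L * m) = M := by rw [← hM]; ring
    have h2 : L' * (K * m') = M := by rw [← h1, hLL]; ring
    have e1 := hid (L * m) rfl R (fun b => c (iota K b)) (hc.comp_iota h1)
    have e2 := hid' (K * m') rfl R (fun b => c (iota L' b)) (hc.comp_iota h2)
    have h3 : L' * (K' * m'') = M := by rw [← hKK, h2]
    have h4 : K * (L' * m') = M := by rw [← hLL, h1]
    have e3 : ∀ a : ZMod m, (iota K (iota L a : ZMod (L * m)) : ZMod M) = iota (K * L) a :=
      fun a => iota_comp h1 a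
    have e4 : ∀ a : ZMod m', (iota K (iota L' a : ZMod (L * m)) : ZMod M) = iota (K * L') a :=
      fun a => iota_comp h1 a
    have e5 : ∀ a : ZMod m', (iota L' (iota K a : ZMod (K * m')) : ZMod M) = iota (L' * K) a :=
      fun a => iota_comp h2 a
    have e6 : ∀ a : ZMod m'', (iota L' (iota K' a : ZMod (K * m')) : ZMod M) = iota (L' * K') a :=
      fun a => iota_comp h2 a
    simp only [e3, e4] at e1
    simp only [e5, e6] at e2
    rw [e1, ← e2, mul_comm K L']

/-- Descent of a relation supported on the multiples of `p`. -/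
lemma descend {m p d : ℕ} [NeZero m] [NeZero d] (hp : 0 < p) (hpd : p * d = m) (x : ZMod m → ℤ)
    (hx : Rel x) (hsupp : ∀ a, x a ≠ 0 → p ∣ a.val) :
    Rel (fun b : ZMod d => x (iota p b)) ∧
      (∀ (R : Type) [AddCommGroup R] (g : ZMod m → R),
        ∑ a, x a • g a = ∑ b : ZMod d, x (iota p b) • g (iota p b)) ∧
      ∑ b : ZMod d, |x (iota p b)| = ∑ a, |x a| := by
  classical
  have hinj : Function.Injective (fun b : ZMod d => (iota p b : ZMod m)) := by
    intro b b' h
    simp only [iota] at h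
    rw [ZMod.natCast_eq_natCast_iff', Nat.mod_eq_of_lt, Nat.mod_eq_of_lt] at h
    · exact ZMod.val_injective d (Nat.eq_of_mul_eq_mul_left hp h)
    · rw [← hpd]; exact Nat.mul_lt_mul_of_pos_left (ZMod.val_lt b') hp
    · rw [← hpd]; exact Nat.mul_lt_mul_of_pos_left (ZMod.val_lt b) hp
  have hsurj : ∀ a : ZMod m, p ∣ a.val → ∃ b : ZMod d, (iota p b : ZMod m) = a := by
    intro a ⟨k, hk⟩
    refine ⟨(k : ZMod d), ?_⟩
    rw [iota_natCast hpd, ← hk, ZMod.natCast_zmod_val]
  have hgen : ∀ (R : Type) [AddCommMonoid R] (F : ZMod m → R), (∀ a, x a = 0 → F a = 0) →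
      ∑ a, F a = ∑ b : ZMod d, F (iota p b) := by
    intro R _ F hF
    rw [← Finset.sum_image (s := univ) (g := fun b : ZMod d => (iota p b : ZMod m))
      (f := F) (fun b _ b' _ h => hinj h)]
    symm
    apply sum_subset (subset_univ _)
    intro a _ ha
    by_cases hya : x a = 0
    · exact hF a hya
    · exfalso
      apply ha
      obtain ⟨b, hb⟩ := hsurj a (hsupp a hya)
      exact mem_image.mpr ⟨b, mem_univ b, hb⟩
  have htrans : ∀ (R : Type) [AddCommGroup R] (g : ZMod m → R),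
      ∑ a, x a • g a = ∑ b : ZMod d, x (iota p b) • g (iota p b) := by
    intro R _ g
    exact hgen R (fun a => x a • g a) (fun a ha => by rw [ha, zero_smul])
  refine ⟨?_, htrans, ?_⟩
  · intro t'
    obtain ⟨t, ht⟩ := ZMod.unitsMap_surjective (Dvd.intro_left p hpd : d ∣ m) t'
    have h1 := hx t
    have h2 := htrans ℤ (fun a => saw ((t : ZMod m) * a))
    simp only [smul_eq_mul] at h2
    rw [h1] at h2
    have h3 : ∀ b : ZMod d, saw ((t : ZMod m) * iota p b) = p * saw ((t' : ZMod d) * b) := by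
      intro b
      rw [← saw_iota hpd]
      congr 1
      have ht' : (t' : ZMod d) = (((t : ZMod m).val : ℕ) : ZMod d) := by
        rw [← ht, ZMod.unitsMap_val]
        rw [ZMod.natCast_val]
      rw [ht', iota_natMul hpd, ZMod.natCast_zmod_val]
    have h4 : (p : ℤ) * ∑ b : ZMod d, x (iota p b) * saw ((t' : ZMod d) * b) = 0 := by
      rw [mul_sum, h2]
      refine sum_congr rfl fun b _ => ?_
      rw [h3]; ring
    have hp0 : (p : ℤ) ≠ 0 := by exact_mod_cast hp.ne'
    exact (mul_eq_zero.mp h4).resolve_left hp0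
  · exact (hgen ℤ (fun a => |x a|) (fun a ha => by rw [ha, abs_zero])).symm

/-- The finiteness theorem for relations. -/
theorem reduce (k : ℕ) : ∀ (N m : ℕ) [NeZero m] (x : ZMod m → ℤ), Rel x → ∑ a, |x a| ≤ k →
    m + (∑ a, |x a|).toNat ≤ N → ∃ (m' : ℕ) (_ : NeZero m') (x' : ZMod m' → ℤ), m' ∣ m ∧
      m' ∣ univDegree k ∧ Rel x' ∧ ∑ a, |x' a| ≤ k ∧ Eqv x x' := by
  intro N
  induction N with
  | zero =>
    intro m _ x _ _ h
    have := NeZero.pos m
    omega
  | succ N ih =>
    intro m _ x hx hk hN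
    by_cases hmD : m ∣ univDegree k
    · exact ⟨m, inferInstance, x, dvd_rfl, hmD, hx, hk, Eqv.refl x⟩
    obtain ⟨p, f, hp, hf, hfm, hcase, hB⟩ := exists_prime_power (NeZero.ne m) hmD
    by_cases hex : ∃ i0, x i0 ≠ 0 ∧ ¬ p ∣ i0.val
    · obtain ⟨i0, hi0, hi0p⟩ := hex
      obtain ⟨x1, hx1, hw, L, hL, hid⟩ := core hp hf hfm hcase k hB x hx hk i0 hi0 hi0p
      have h0 : 0 ≤ ∑ a, |x1 a| := sum_nonneg fun a _ => abs_nonneg _
      obtain ⟨m', hm', x', h1, h2, h3, h4, h5⟩ := ih m x1 hx1 (by omega) (by omega)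
      have heqv : Eqv x x1 := ⟨L, L, hL, hL, rfl, hid⟩
      exact ⟨m', hm', x', h1, h2, h3, h4, heqv.trans h5⟩
    · push Not at hex
      have hpm : p ∣ m := (dvd_pow_self p (by omega)).trans hfm
      obtain ⟨d, hd⟩ := hpm
      have hd0 : NeZero d := ⟨by rintro rfl; rw [mul_zero] at hd; exact NeZero.ne m hd⟩
      obtain ⟨hr, ht, hs⟩ := descend hp.pos hd.symm x hx hex
      have hdm : d < m := by
        have := hp.two_le
        have := NeZero.pos d
        rw [hd]; nlinarith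
      obtain ⟨m', hm', x', h1, h2, h3, h4, h5⟩ := ih d (fun b => x (iota p b)) hr
        (by rw [hs]; exact hk) (by rw [hs]; omega)
      have heqv : Eqv x (fun b : ZMod d => x (iota p b)) := by
        refine ⟨1, p, one_pos, hp.pos, by rw [one_mul]; exact hd, ?_⟩
        intro M _ hM R _ c _
        rw [ht R (fun a => c (iota 1 a))]
        refine sum_congr rfl fun b _ => ?_
        rw [iota_comp hM, one_mul]
      exact ⟨m', hm', x', h1.trans (Dvd.intro_left p hd.symm), h2, h3, h4, heqv.trans h5⟩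

end Pool.Agent.N997
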