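import Pool.Agent.N997.Star
import Pool.Agent.N997.Defs

/-!
Choice of a class of entries whose residues are small multiples of a common unit, while all other
entries are far from it.
-/

namespace Pool.Agent.N997

open Finset Pool.Agent.H916R2

lemma one_le_scale {k : ℕ} (hk : 0 < k) (l : ℕ) : 1 ≤ scale k l := by
  induction l with
  | zero => exact le_rfl
  | succ l ih =>
    unfold scale
    have h1 : 0 < scale k l ^ (2 * k) := pow_pos ih _
    have : 0 < 8 * k ^ 2 * scale k l ^ (2 * k) := by positivity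
    exact this

lemma scale_le_succ {k : ℕ} (hk : 0 < k) (l : ℕ) : scale k l ≤ scale k (l + 1) := by
  have h1 := one_le_scale hk l
  have h2 : scale k l ≤ scale k l ^ (2 * k) := Nat.le_self_pow (by omega) _
  have h3 : 1 ≤ 8 * k ^ 2 := by
    have : 0 < 8 * k ^ 2 := by positivity
    exact this
  calc scale k l ≤ scale k l ^ (2 * k) := h2
    _ = 1 * scale k l ^ (2 * k) := (one_mul _).symm
    _ ≤ 8 * k ^ 2 * scale k l ^ (2 * k) := Nat.mul_le_mul_right _ h3

lemma scale_mono {k : ℕ} (hk : 0 < k) {a b : ℕ} (h : a ≤ b) : scale k a ≤ scale k b := by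
  induction h with
  | refl => exact le_rfl
  | step _ ih => exact ih.trans (scale_le_succ hk _)

lemma pigeon {α : Type*} [DecidableEq α] (S : ℕ → Finset α) (I : Finset α) (k : ℕ)
    (hI : I.card ≤ k) (hS : ∀ l, S l ⊆ I) (hmono : ∀ l, S l ⊆ S (l + 1)) (h0 : (S 0).Nonempty) :
    ∃ l, l < k ∧ S (l + 1) = S l := by
  by_contra hcon
  push Not at hcon
  have h1 : ∀ l, l ≤ k → l + 1 ≤ (S l).card := by
    intro l
    induction l with
    | zero => intro _; exact h0.card_pos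
    | succ l ih =>
      intro hl
      have h2 := ih (by omega)
      have h3 : S l ⊂ S (l + 1) :=
        (hmono l).ssubset_of_ne (fun h => hcon l (by omega) h.symm)
      have h4 := card_lt_card h3
      omega
  have h2 := h1 k le_rfl
  have h3 := card_le_card (hS k)
  omega

variable {m d Q : ℕ} [NeZero m] [NeZero Q]

open scoped Classical in
theorem select {p k : ℕ} (hp : p.Prime) (hk : 0 < k) (h : d * Q = m)
    (hpu : ∀ z : ℤ, ¬ (p : ℤ) ∣ z → IsUnit (z : ZMod Q))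
    (hpn : ∀ z : ℤ, (p : ℤ) ∣ z → ¬ IsUnit (z : ZMod Q))
    (x : ZMod m → ℤ) (hx : ∑ a, |x a| ≤ k) (i0 : ZMod m) (hi0 : x i0 ≠ 0)
    (hi0u : IsUnit (bt h i0)) :
    ∃ (J : ℕ) (S : Finset (ZMod m)) (n : ZMod m → ℤ) (β0 : ZMod Q),
      1 ≤ J ∧ 8 * k ^ 2 * J ^ (2 * k) ≤ scale k k ∧ S.card ≤ k ∧ i0 ∈ S ∧ IsUnit β0 ∧
      (∀ a ∈ S, ¬ (p : ℤ) ∣ n a ∧ |n a| ≤ (J ^ k : ℕ) ∧ bt h a = (n a : ZMod Q) * β0) ∧
      (∀ a, a ∉ S → x a ≠ 0 → IsUnit (bt h a) → ∀ j : ℕ, 1 ≤ j → j ≤ 2 * k * J ^ k → ¬ p ∣ j →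
        ∀ z : ℤ, (z : ZMod Q) * bt h a = (j : ZMod Q) * β0 →
          ((4 * k * (2 * k * J ^ k) : ℕ) : ℤ) < |z|) := by
  set I : Finset (ZMod m) := univ.filter (fun a => x a ≠ 0 ∧ IsUnit (bt h a)) with hI
  have hIcard : I.card ≤ k := by
    have h1 : (I.card : ℤ) ≤ ∑ a, |x a| := by
      calc (I.card : ℤ) = ∑ a ∈ I, 1 := by simp
        _ ≤ ∑ a ∈ I, |x a| := by
            apply sum_le_sum
            intro a ha
            rw [hI, mem_filter] at ha
            exact Int.one_le_abs ha.2.1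
        _ ≤ ∑ a, |x a| := sum_le_univ_sum_of_nonneg fun a => abs_nonneg _
    have h2 := h1.trans hx
    exact_mod_cast h2
  set near : ℕ → ZMod m → Prop := fun J a => ∃ u v : ℤ, ¬ (p : ℤ) ∣ u ∧ ¬ (p : ℤ) ∣ v ∧
    |u| ≤ J ∧ |v| ≤ J ∧ (u : ZMod Q) * bt h a = (v : ZMod Q) * bt h i0 with hnear
  obtain ⟨l, hl, hSl⟩ := pigeon (fun l => I.filter (near (scale k l))) I k hIcard
    (fun l => filter_subset _ _) (by
      intro l a ha
      rw [mem_filter] at ha ⊢
      obtain ⟨ha1, u, v, hu, hv, hu', hv', huv⟩ := ha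
      have h1 : (scale k l : ℤ) ≤ scale k (l + 1) := by exact_mod_cast scale_le_succ hk l
      exact ⟨ha1, u, v, hu, hv, hu'.trans h1, hv'.trans h1, huv⟩) (by
      refine ⟨i0, ?_⟩
      rw [mem_filter, hI, mem_filter]
      refine ⟨⟨mem_univ _, hi0, hi0u⟩, 1, 1, ?_, ?_, ?_, ?_, rfl⟩
      · intro h1
        have := Int.le_of_dvd (by norm_num) h1
        have := hp.two_le
        omega
      · intro h1
        have := Int.le_of_dvd (by norm_num) h1
        have := hp.two_le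
        omega
      · simp [scale]
      · simp [scale])
  set J := scale k l with hJ
  set S := I.filter (near J) with hS
  have hJ1 : 1 ≤ J := one_le_scale hk l
  have hScard : S.card ≤ k := (card_le_card (filter_subset _ _)).trans hIcard
  have hi0S : i0 ∈ S := by
    rw [hS, mem_filter, hI, mem_filter]
    refine ⟨⟨mem_univ _, hi0, hi0u⟩, 1, 1, ?_, ?_, ?_, ?_, rfl⟩
    · intro h1
      have := Int.le_of_dvd (by norm_num) h1
      have := hp.two_le
      omega
    · intro h1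
      have := Int.le_of_dvd (by norm_num) h1
      have := hp.two_le
      omega
    · simp only [abs_one]; exact_mod_cast hJ1
    · simp only [abs_one]; exact_mod_cast hJ1
  have hch : ∀ a : ZMod m, ∃ uv : ℤ × ℤ, a ∈ S → ¬ (p : ℤ) ∣ uv.1 ∧ ¬ (p : ℤ) ∣ uv.2 ∧
      |uv.1| ≤ J ∧ |uv.2| ≤ J ∧ (uv.1 : ZMod Q) * bt h a = (uv.2 : ZMod Q) * bt h i0 := by
    intro a
    by_cases ha : a ∈ S
    · have ha' := ha
      rw [hS, mem_filter] at ha'
      obtain ⟨_, u, v, h1, h2, h3, h4, h5⟩ := ha'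
      exact ⟨(u, v), fun _ => ⟨h1, h2, h3, h4, h5⟩⟩
    · exact ⟨(0, 0), fun h => absurd h ha⟩
  choose uv huv using hch
  set A : ℤ := ∏ a ∈ S, (uv a).1 with hA
  have hpz : Prime (p : ℤ) := Nat.prime_iff_prime_int.mp hp
  have hprod : ∀ T : Finset (ZMod m), T ⊆ S → ¬ (p : ℤ) ∣ ∏ a ∈ T, (uv a).1 := by
    intro T hT hdvd
    rw [hpz.dvd_finsetProd_iff] at hdvd
    obtain ⟨a, ha, hd⟩ := hdvd
    exact (huv a (hT ha)).1 hd
  have hprodle : ∀ T : Finset (ZMod m), T ⊆ S → |∏ a ∈ T, (uv a).1| ≤ (J : ℤ) ^ T.card := by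
    intro T hT
    rw [Finset.abs_prod]
    calc ∏ a ∈ T, |(uv a).1| ≤ ∏ a ∈ T, (J : ℤ) :=
          prod_le_prod (fun a _ => abs_nonneg _) (fun a ha => (huv a (hT ha)).2.2.1)
      _ = _ := by rw [prod_const]
  have hAu : IsUnit (A : ZMod Q) := hpu A (hprod S Subset.rfl)
  obtain ⟨Ai, hAi⟩ := hAu.exists_right_inv
  have hJz : (1 : ℤ) ≤ J := by exact_mod_cast hJ1
  refine ⟨J, S, fun a => (uv a).2 * ∏ b ∈ S.erase a, (uv b).1, bt h i0 * Ai, hJ1, ?_, hScard, hi0S,
    ?_, ?_, ?_⟩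
  · have : 8 * k ^ 2 * J ^ (2 * k) = scale k (l + 1) := rfl
    rw [this]
    exact scale_mono hk (by omega)
  · exact hi0u.mul (IsUnit.of_mul_eq_one (A : ZMod Q) (by rw [mul_comm]; exact hAi))
  · intro a ha
    obtain ⟨h1, h2, h3, h4, h5⟩ := huv a ha
    refine ⟨?_, ?_, ?_⟩
    · intro hd
      rcases hpz.dvd_or_dvd hd with h6 | h6
      · exact h2 h6
      · exact hprod _ (erase_subset _ _) h6
    · rw [abs_mul]
      have h6 := hprodle (S.erase a) (erase_subset _ _)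
      have h7 : (S.erase a).card + 1 = S.card := card_erase_add_one ha
      calc |(uv a).2| * |∏ b ∈ S.erase a, (uv b).1| ≤ J * (J : ℤ) ^ (S.erase a).card :=
            mul_le_mul h4 h6 (abs_nonneg _) (by omega)
        _ = (J : ℤ) ^ S.card := by rw [← h7]; ring
        _ ≤ (J : ℤ) ^ k := pow_le_pow_right₀ hJz hScard
        _ = ((J ^ k : ℕ) : ℤ) := by push_cast; rfl
    · apply (hpu _ h1).mul_left_cancel
      rw [h5]
      have h6 : (A : ZMod Q) = ((uv a).1 : ZMod Q) * ((∏ b ∈ S.erase a, (uv b).1 : ℤ) : ZMod Q) := by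
        rw [← Int.cast_mul, Finset.mul_prod_erase S (fun b => (uv b).1) ha]
      rw [h6] at hAi
      rw [Int.cast_mul]
      linear_combination (-((uv a).2 : ZMod Q) * bt h i0) * hAi
  · intro a haS hxa hau j hj1 hjU hpj z hz
    by_contra hcon
    push Not at hcon
    apply haS
    rw [← hSl, mem_filter]
    refine ⟨by rw [hI, mem_filter]; exact ⟨mem_univ _, hxa, hau⟩, z * A, j, ?_, ?_, ?_, ?_, ?_⟩
    · intro hd
      rcases hpz.dvd_or_dvd hd with h6 | h6
      · apply hpn z h6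
        have h7 : IsUnit ((j : ZMod Q) * (bt h i0 * Ai)) := by
          have h8 : IsUnit ((j : ℤ) : ZMod Q) := hpu j (by exact_mod_cast hpj)
          rw [Int.cast_natCast] at h8
          exact h8.mul (hi0u.mul (IsUnit.of_mul_eq_one (A : ZMod Q) (by rw [mul_comm]; exact hAi)))
        rw [← hz] at h7
        exact isUnit_of_mul_isUnit_left h7
      · exact hprod S Subset.rfl h6
    · exact_mod_cast hpj
    · rw [abs_mul]
      have h6 := hprodle S Subset.rfl
      rw [← hA] at h6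
      have h7 : (J : ℤ) ^ S.card ≤ (J : ℤ) ^ k := pow_le_pow_right₀ hJz hScard
      calc |z| * |A| ≤ ((4 * k * (2 * k * J ^ k) : ℕ) : ℤ) * (J : ℤ) ^ k :=
            mul_le_mul hcon (h6.trans h7) (abs_nonneg _) (by positivity)
        _ = ((8 * k ^ 2 * J ^ (2 * k) : ℕ) : ℤ) := by push_cast; ring
        _ = ((scale k (l + 1) : ℕ) : ℤ) := rfl
    · rw [Nat.abs_cast]
      have h6 : 2 * k * J ^ k ≤ 8 * k ^ 2 * J ^ (2 * k) := by
        have h7 : J ^ k ≤ J ^ (2 * k) := Nat.pow_le_pow_right hJ1 (by omega)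
        have h8 : 2 * k ≤ 8 * k ^ 2 := by nlinarith
        exact Nat.mul_le_mul h8 h7
      have h9 : j ≤ scale k (l + 1) := hjU.trans h6
      exact_mod_cast h9
    · rw [Int.cast_mul, Int.cast_natCast]
      linear_combination (A : ZMod Q) * hz + ((j : ZMod Q) * bt h i0) * hAi

end Pool.Agent.N997
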