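import Pool.Agent.N997.Dft

/-!
The estimate which a relation gives for the Fourier coefficients at unit frequencies.
-/

namespace Pool.Agent.N997

open Finset Pool.Agent.H916R2

variable {m d Q : ℕ} [NeZero m] [NeZero Q]

/-- reduction modulo `Q` -/
noncomputable def bt (h : d * Q = m) : ZMod m →+* ZMod Q :=
  ZMod.castHom (Dvd.intro_left d h : Q ∣ m) (ZMod Q)

/-- non-units are zero divisors -/
def Loc (Q : ℕ) : Prop := ∀ β : ZMod Q, ¬ IsUnit β → ∃ s1 : ZMod Q, s1 * β = 0 ∧ s1 ≠ 0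

lemma inv_mul_unit {a b : ZMod Q} (ha : IsUnit a) (hb : IsUnit b) : (a * b)⁻¹ = a⁻¹ * b⁻¹ := by
  have h1 := ZMod.mul_inv_of_unit a ha
  have h2 := ZMod.mul_inv_of_unit b hb
  have h3 := ZMod.mul_inv_of_unit (a * b) (ha.mul hb)
  have h4 : (a * b) * (a⁻¹ * b⁻¹) = 1 := by linear_combination b * b⁻¹ * h1 + h2
  exact (ha.mul hb).mul_left_cancel (h3.trans h4.symm)

open scoped Classical in
theorem star (h : d * Q = m) (x : ZMod m → ℤ) (hx : Rel x) (k : ℕ)
    (hk : ∑ a, |x a| ≤ k) (hloc : Loc Q)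
    (hunit : ∃ s0 : ZMod Q, ∀ s, s ≠ s0 → IsUnit (1 + iota d s : ZMod m))
    (t : (ZMod m)ˣ) (h0 : ZMod Q) (hh0 : IsUnit h0) (hQ1 : 1 < Q) :
    ‖∑ a ∈ univ.filter (fun a : ZMod m => IsUnit (bt h a)),
      (x a : ℂ) * TT' d ((t : ZMod m) * a) (h0 * (bt h a)⁻¹)‖ ≤ k / 2 := by
  have hm : 0 < m := NeZero.pos m
  have hnt : Nontrivial (ZMod Q) := by
    have : Fact (1 < Q) := ⟨hQ1⟩
    infer_instance
  have htu : IsUnit (bt h (t : ZMod m)) := t.isUnit.map (bt h)
  set w : ZMod Q := h0 * bt h (t : ZMod m) with hw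
  have hwu : IsUnit w := hh0.mul htu
  have hw0 : w ≠ 0 := hwu.ne_zero
  set G : ZMod Q → ℂ := fun s => ∑ a : ZMod m, (if a = 0 then 0 else (x a : ℂ) *
    ((2 * ((t : ZMod m) * a + iota d s * ((t : ZMod m) * a) : ZMod m).val : ℂ) - m)) with hG
  -- G vanishes at the units
  have hG0 : ∀ s, IsUnit (1 + iota d s : ZMod m) → G s = 0 := by
    intro s hs
    obtain ⟨u, hu⟩ := hs
    have h1 := hx (u * t)
    have h2 : G s = ((∑ a, x a * saw (((u * t : (ZMod m)ˣ) : ZMod m) * a) : ℤ) : ℂ) := by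
      rw [hG]
      simp only
      rw [Int.cast_sum]
      refine sum_congr rfl fun a _ => ?_
      have e1 : (t : ZMod m) * a + iota d s * ((t : ZMod m) * a) =
          ((u * t : (ZMod m)ˣ) : ZMod m) * a := by
        rw [Units.val_mul, hu]; ring
      split_ifs with ha
      · rw [ha, mul_zero, saw_zero]; simp
      · rw [e1, saw_of_ne_zero (unit_mul_ne_zero _ ha)]
        push_cast
        ring
    rw [h2, h1]
    simp
  -- G is bounded
  have hGb : ∀ s, ‖G s‖ ≤ k * m := by
    intro s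
    rw [hG]
    simp only
    have h1 : ∀ a : ZMod m, ‖(if a = 0 then (0 : ℂ) else (x a : ℂ) *
        ((2 * ((t : ZMod m) * a + iota d s * ((t : ZMod m) * a) : ZMod m).val : ℂ) - m))‖ ≤
        (|x a| : ℤ) * (m : ℝ) := by
      intro a
      split_ifs with ha
      · rw [norm_zero]; positivity
      · rw [norm_mul]
        have e1 : ‖(x a : ℂ)‖ = ((|x a| : ℤ) : ℝ) := by
          rw [Complex.norm_intCast]; push_cast; rfl
        rw [e1]
        apply mul_le_mul_of_nonneg_left _ (by positivity)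
        set v := ((t : ZMod m) * a + iota d s * ((t : ZMod m) * a) : ZMod m).val with hv
        have hvm : v < m := ZMod.val_lt _
        have e2 : (2 * (v : ℂ) - m) = (((2 * (v : ℝ) - m) : ℝ) : ℂ) := by push_cast; ring
        rw [e2, Complex.norm_real, Real.norm_eq_abs, abs_le]
        have : (v : ℝ) ≤ m := by exact_mod_cast hvm.le
        have h0 : (0 : ℝ) ≤ v := Nat.cast_nonneg _
        constructor <;> linarith
    calc ‖∑ a : ZMod m, _‖ ≤ ∑ a : ZMod m, ((|x a| : ℤ) : ℝ) * (m : ℝ) :=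
          norm_sum_le_of_le _ fun a _ => h1 a
      _ = ((∑ a, |x a| : ℤ) : ℝ) * m := by rw [← sum_mul]; push_cast; rfl
      _ ≤ k * m := by
          apply mul_le_mul_of_nonneg_right _ (Nat.cast_nonneg _)
          exact_mod_cast hk
  obtain ⟨s0, hs0⟩ := hunit
  have hA : ‖∑ s, G s * ZMod.stdAddChar (-(w * s))‖ ≤ k * m := by
    rw [Finset.sum_eq_single s0]
    · rw [norm_mul]
      have : ‖(ZMod.stdAddChar (-(w * s0)) : ℂ)‖ = 1 := by
        rw [ZMod.stdAddChar_apply]; exact Circle.norm_coe _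
      rw [this, mul_one]
      exact hGb s0
    · intro s _ hs
      rw [hG0 s (hs0 s hs), zero_mul]
    · intro h1; exact absurd (mem_univ _) h1
  have hB : ∑ s, G s * ZMod.stdAddChar (-(w * s)) =
      2 * m * ∑ a ∈ univ.filter (fun a : ZMod m => IsUnit (bt h a)),
      (x a : ℂ) * TT' d ((t : ZMod m) * a) (h0 * (bt h a)⁻¹) := by
    have h1 : ∑ s, G s * ZMod.stdAddChar (-(w * s)) = ∑ a : ZMod m, (if a = 0 then 0 else (x a : ℂ) *
        ∑ s, ((2 * ((t : ZMod m) * a + iota d s * ((t : ZMod m) * a) : ZMod m).val : ℂ) - m) *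
          ZMod.stdAddChar (-(w * s))) := by
      rw [hG]
      simp only [sum_mul]
      rw [sum_comm]
      refine sum_congr rfl fun a _ => ?_
      split_ifs with ha
      · simp
      · rw [mul_sum]
        refine sum_congr rfl fun s _ => ?_
        ring
    rw [h1, mul_sum, sum_filter]
    refine sum_congr rfl fun a _ => ?_
    have hbt : ZMod.castHom (Dvd.intro_left d h : Q ∣ m) (ZMod Q) ((t : ZMod m) * a) =
        bt h (t : ZMod m) * bt h a := by
      rw [map_mul]; rfl
    by_cases hau : IsUnit (bt h a)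
    · have ha0 : a ≠ 0 := by
        rintro rfl
        rw [map_zero] at hau
        exact not_isUnit_zero hau
      rw [if_neg ha0, if_pos hau, entry_unit h _ hw0 (by rw [hbt]; exact htu.mul hau), hbt,
        inv_mul_unit htu hau]
      have e1 : w * ((bt h (t : ZMod m))⁻¹ * (bt h a)⁻¹) = h0 * (bt h a)⁻¹ := by
        have h2 := ZMod.mul_inv_of_unit _ htu
        rw [hw]
        linear_combination h0 * (bt h a)⁻¹ * h2
      rw [e1]
      ring
    · rw [if_neg hau]
      split_ifs with ha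
      · rfl
      · obtain ⟨s1, hs1, hs10⟩ := hloc (bt h a) hau
        rw [entry_nonunit h _ hw0 s1]
        · simp
        · rw [hbt]; linear_combination (bt h (t : ZMod m)) * hs1
        · intro h2
          exact hs10 (hwu.mul_left_cancel (by rw [h2, mul_zero]))
  rw [hB, norm_mul] at hA
  have hm' : ‖(2 * (m : ℂ))‖ = 2 * m := by
    rw [norm_mul]; simp
  rw [hm'] at hA
  have hmpos : (0 : ℝ) < m := by exact_mod_cast hm
  rw [le_div_iff₀ (by norm_num : (0 : ℝ) < 2)]
  have h3 : m * (‖∑ a ∈ univ.filter (fun a : ZMod m => IsUnit (bt h a)),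
      (x a : ℂ) * TT' d ((t : ZMod m) * a) (h0 * (bt h a)⁻¹)‖ * 2) ≤ m * (k : ℝ) := by linarith
  exact le_of_mul_le_mul_left h3 hmpos

end Pool.Agent.N997
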