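import Pool.Agent.N997.Fiber

/-!
A function with small support is determined by few Fourier coefficients.
-/

namespace Pool.Agent.N997

open Finset Polynomial

variable {M : ℕ} [NeZero M]

/-- the Fourier coefficient -/
noncomputable def FC (D : ZMod M → ℤ) (j : ℕ) : ℂ :=
  ∑ w, (D w : ℂ) * ZMod.stdAddChar ((j : ZMod M) * w)

open scoped Classical in
theorem vand (D : ZMod M → ℤ) (U : ℕ) (hs : (univ.filter (fun w => D w ≠ 0)).card ≤ U)
    (h : ∀ j, 1 ≤ j → j ≤ U → FC D j = 0) : ∀ w, D w = 0 := by
  by_contra hcon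
  push Not at hcon
  obtain ⟨w0, hw0⟩ := hcon
  set S := univ.filter (fun w => D w ≠ 0) with hS
  have hw0S : w0 ∈ S := by rw [hS, mem_filter]; exact ⟨mem_univ _, hw0⟩
  set P : ℂ[X] := X * ∏ w ∈ S.erase w0, (X - C (ZMod.stdAddChar w : ℂ)) with hP
  have hdeg : P.natDegree ≤ U := by
    rw [hP]
    calc (X * ∏ w ∈ S.erase w0, (X - C (ZMod.stdAddChar w : ℂ))).natDegree
        ≤ (X : ℂ[X]).natDegree + (∏ w ∈ S.erase w0, (X - C (ZMod.stdAddChar w : ℂ))).natDegree :=
          natDegree_mul_le
      _ ≤ 1 + (S.erase w0).card := by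
          apply add_le_add
          · exact natDegree_X_le
          · rw [natDegree_prod_of_monic _ _ fun w _ => monic_X_sub_C _]
            simp
      _ = S.card := by
          rw [card_erase_of_mem hw0S]
          have := card_pos.mpr ⟨w0, hw0S⟩
          omega
      _ ≤ U := hs
  have h0 : P.coeff 0 = 0 := by rw [hP, coeff_zero_eq_eval_zero]; simp
  have h1 : ∑ w, (D w : ℂ) * P.eval (ZMod.stdAddChar w : ℂ) = 0 := by
    have h2 : ∀ w : ZMod M, (D w : ℂ) * P.eval (ZMod.stdAddChar w : ℂ) =
        ∑ j ∈ range (U + 1), P.coeff j * ((D w : ℂ) * ZMod.stdAddChar ((j : ZMod M) * w)) := by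
      intro w
      rw [eval_eq_sum_range' (Nat.lt_succ_of_le hdeg), mul_sum]
      refine sum_congr rfl fun j _ => ?_
      have : (ZMod.stdAddChar ((j : ZMod M) * w) : ℂ) = (ZMod.stdAddChar w : ℂ) ^ j := by
        rw [← AddChar.map_nsmul_eq_pow, nsmul_eq_mul]
      rw [this]; ring
    rw [sum_congr rfl fun w _ => h2 w, sum_comm]
    apply sum_eq_zero
    intro j hj
    rw [← mul_sum]
    rcases Nat.eq_zero_or_pos j with rfl | hj0
    · rw [h0, zero_mul]
    · have := h j hj0 (by have := mem_range.mp hj; omega)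
      unfold FC at this
      rw [this, mul_zero]
  rw [Finset.sum_eq_single w0] at h1
  · rcases mul_eq_zero.mp h1 with h3 | h3
    · exact hw0 (by exact_mod_cast h3)
    · rw [hP, eval_mul, eval_X, eval_prod] at h3
      rcases mul_eq_zero.mp h3 with h4 | h4
      · have : ‖(ZMod.stdAddChar w0 : ℂ)‖ = 1 := by
          rw [ZMod.stdAddChar_apply]; exact Circle.norm_coe _
        rw [h4, norm_zero] at this
        exact zero_ne_one this
      · rw [prod_eq_zero_iff] at h4
        obtain ⟨w, hw, h5⟩ := h4
        rw [eval_sub, eval_X, eval_C, sub_eq_zero] at h5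
        exact (mem_erase.mp hw).1 (ZMod.injective_stdAddChar h5).symm
  · intro w _ hw
    by_cases hD : D w = 0
    · rw [hD]; simp
    · have hwS : w ∈ S.erase w0 := by
        rw [mem_erase, hS, mem_filter]
        exact ⟨hw, mem_univ _, hD⟩
      rw [hP, eval_mul, eval_prod, prod_eq_zero hwS, mul_zero, mul_zero]
      simp
  · intro h6; exact absurd (mem_univ _) h6

open scoped Classical in
theorem periodic (D : ZMod M → ℤ) {p : ℕ} (hpM : p ∣ M) (U : ℕ)
    (hs : 2 * (univ.filter (fun w => D w ≠ 0)).card ≤ U)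
    (h : ∀ j, 1 ≤ j → j ≤ U → ¬ p ∣ j → FC D j = 0) (w : ZMod M) :
    D (w + ((M / p : ℕ) : ZMod M)) = D w := by
  set e : ZMod M := ((M / p : ℕ) : ZMod M) with he
  set D' : ZMod M → ℤ := fun w => D (w + e) - D w with hD'
  have key := vand D' U ?_ ?_ w
  · have : D (w + e) - D w = 0 := key
    omega
  · have h1 : univ.filter (fun w => D' w ≠ 0) ⊆ (univ.filter (fun w => D w ≠ 0)) ∪
        (univ.filter (fun w => D w ≠ 0)).image (fun w => w - e) := by
      intro v hv
      rw [mem_filter] at hv
      rw [mem_union, mem_filter, mem_image]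
      by_cases h2 : D v = 0
      · right
        refine ⟨v + e, ?_, by ring⟩
        rw [mem_filter]
        refine ⟨mem_univ _, ?_⟩
        intro h3
        apply hv.2
        simp only [hD']
        rw [h2, h3, sub_zero]
      · left; exact ⟨mem_univ _, h2⟩
    calc (univ.filter (fun w => D' w ≠ 0)).card ≤ _ := card_le_card h1
      _ ≤ (univ.filter (fun w => D w ≠ 0)).card +
          ((univ.filter (fun w => D w ≠ 0)).image (fun w => w - e)).card := card_union_le _ _
      _ ≤ (univ.filter (fun w => D w ≠ 0)).card + (univ.filter (fun w => D w ≠ 0)).card :=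
          Nat.add_le_add_left card_image_le _
      _ ≤ U := by omega
  · intro j hj1 hjU
    have h2 : FC D' j = (ZMod.stdAddChar (-((j : ZMod M) * e)) - 1) * FC D j := by
      unfold FC
      have h3 := Equiv.sum_comp (Equiv.addRight (-e))
        (fun w => ((D (w + e) : ℤ) : ℂ) * ZMod.stdAddChar ((j : ZMod M) * w))
      have h4 : ∑ i, ((D ((Equiv.addRight (-e)) i + e) : ℤ) : ℂ) *
          ZMod.stdAddChar ((j : ZMod M) * (Equiv.addRight (-e)) i) =
          ZMod.stdAddChar (-((j : ZMod M) * e)) *
            ∑ w, (D w : ℂ) * ZMod.stdAddChar ((j : ZMod M) * w) := by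
        rw [mul_sum]
        refine sum_congr rfl fun i _ => ?_
        rw [Equiv.coe_addRight, neg_add_cancel_right]
        have : (ZMod.stdAddChar ((j : ZMod M) * (i + -e)) : ℂ) =
            ZMod.stdAddChar (-((j : ZMod M) * e)) * ZMod.stdAddChar ((j : ZMod M) * i) := by
          rw [← AddChar.map_add_eq_mul]; congr 1; ring
        rw [this]; ring
      rw [h4] at h3
      have h5 : ∑ w, (D' w : ℂ) * ZMod.stdAddChar ((j : ZMod M) * w) =
          ∑ w, ((D (w + e) : ℤ) : ℂ) * ZMod.stdAddChar ((j : ZMod M) * w) -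
          ∑ w, (D w : ℂ) * ZMod.stdAddChar ((j : ZMod M) * w) := by
        rw [← sum_sub_distrib]
        refine sum_congr rfl fun w _ => ?_
        simp only [hD']
        push_cast; ring
      rw [h5, ← h3]; ring
    rw [h2]
    by_cases hpj : p ∣ j
    · obtain ⟨j', rfl⟩ := hpj
      have : -(((p * j' : ℕ) : ZMod M) * e) = 0 := by
        have := mul_div_zero (M := M) hpM
        rw [he]
        push_cast
        linear_combination -(j' : ZMod M) * this
      rw [this, AddChar.map_zero_eq_one, sub_self, zero_mul]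
    · rw [h j hj1 hjU hpj, mul_zero]

end Pool.Agent.N997
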